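import Mathlib

set_option autoImplicit false

open Set Submodule

namespace Pool.Agent.Lib.MP_a4feb0_gt

section ring

variable {R Y : Type*} [Ring R] [AddCommGroup Y] [Module R Y]

lemma countable_span [Countable R] {B : Set Y} (hB : B.Countable) :
    (span R B : Set Y).Countable := by
  have := hB.to_subtype
  have h : Countable (span R (range (Subtype.val : B → Y))) := inferInstance
  rw [Subtype.range_coe] at h
  exact h

/-- A countable submodule of an uncountable module over a countable noetherian ring is not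
essential. -/
lemma exists_disjoint_cyclic [Countable R] [IsNoetherianRing R] [Uncountable Y] (B₀ : Set Y)
    (hB₀ : B₀.Countable) : ∃ y : Y, y ≠ 0 ∧ ∀ r : R, r • y ∈ span R B₀ → r • y = 0 := by
  classical
  by_contra hcon
  push Not at hcon
  let w : Set (R × Y) → Y := fun t => if h : ∃ y : Y, ∀ p ∈ t, p.1 • y = p.2 then h.choose else 0
  let B : ℕ → Set Y := fun n => Nat.rec B₀
    (fun _ Bn => Bn ∪ w '' {t | t.Finite ∧ t ⊆ univ ×ˢ (span R Bn : Set Y)}) n
  have hBs : ∀ n, B (n + 1) = B n ∪ w '' {t | t.Finite ∧ t ⊆ univ ×ˢ (span R (B n) : Set Y)} :=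
    fun _ => rfl
  have hBc : ∀ n, (B n).Countable := by
    intro n
    induction n with
    | zero => exact hB₀
    | succ n ih =>
      rw [hBs]
      exact ih.union ((countable_ofPred_finite_subset
        (countable_univ.prod (countable_span ih))).image w)
  have hmono : Monotone fun n => span R (B n) :=
    monotone_nat_of_le_succ fun n => span_mono (by rw [hBs]; exact subset_union_left)
  let E : Submodule R Y := ⨆ n, span R (B n)
  have hE : ∀ x, x ∈ E ↔ ∃ n, x ∈ span R (B n) := fun x =>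
    mem_iSup_of_directed _ hmono.directed_le
  have hall : ∀ y, y ∈ E := by
    intro y
    let I : Submodule R R := E.comap (LinearMap.toSpanSingleton R Y y)
    obtain ⟨s, hs⟩ : I.FG := IsNoetherian.noetherian I
    have h1 : ∀ r ∈ s, ∃ n, r • y ∈ span R (B n) := fun r hr =>
      (hE _).mp (show r ∈ I from hs ▸ subset_span hr)
    choose! nn hnn using h1
    let t : Set (R × Y) := (fun r => (r, r • y)) '' (s : Set R)
    have ht : t.Finite ∧ t ⊆ univ ×ˢ (span R (B (s.sup nn)) : Set Y) := by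
      refine ⟨(s.finite_toSet).image _, ?_⟩
      rintro _ ⟨r, hr, rfl⟩
      exact ⟨mem_univ _, hmono (Finset.le_sup (f := nn) hr) (hnn r hr)⟩
    have hex : ∃ y' : Y, ∀ p ∈ t, p.1 • y' = p.2 := ⟨y, by rintro _ ⟨r, -, rfl⟩; rfl⟩
    have hw : ∀ p ∈ t, p.1 • w t = p.2 := by
      simp only [w, dif_pos hex]
      exact hex.choose_spec
    have hwE : w t ∈ E := (hE _).mpr ⟨s.sup nn + 1, subset_span (by
      rw [hBs]; exact Or.inr ⟨t, ht, rfl⟩)⟩
    have hI : I ≤ LinearMap.ker (LinearMap.toSpanSingleton R Y (y - w t)) := by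
      rw [← hs, span_le]
      intro r hr
      show r • (y - w t) = 0
      rw [smul_sub, hw (r, r • y) ⟨r, hr, rfl⟩, sub_self]
    by_cases hz : y - w t = 0
    · rw [sub_eq_zero.mp hz]; exact hwE
    · obtain ⟨r, hr1, hr2⟩ := hcon _ hz
      have h2 : r • (y - w t) ∈ E := (hE _).mpr ⟨0, hr1⟩
      have h3 : r ∈ I := by
        show r • y ∈ E
        have := E.add_mem h2 (E.smul_mem r hwE)
        rwa [smul_sub, sub_add_cancel] at this
      exact absurd (hI h3) hr2
  have hcount : (univ : Set Y).Countable := by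
    refine (countable_iUnion fun n => countable_span (R := R) (hBc n)).mono fun y _ => ?_
    exact mem_iUnion.mpr ((hE y).mp (hall y))
  exact not_countable (countable_univ_iff.mp hcount)

variable (R) in
/-- The cyclic submodules generated by the elements of `J` are nonzero and independent. -/
def CycIndep (J : Set Y) : Prop :=
  (0 : Y) ∉ J ∧ ∀ y ∈ J, ∀ r : R, r • y ∈ span R (J \ {y}) → r • y = 0

lemma CycIndep.mono {J J' : Set Y} (h : CycIndep R J) (hJ : J' ⊆ J) : CycIndep R J' :=
  ⟨fun h0 => h.1 (hJ h0), fun y hy r hr =>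
    h.2 y (hJ hy) r (span_mono (sdiff_subset_sdiff_left hJ) hr)⟩

lemma exists_uncountable_cycIndep [Countable R] [IsNoetherianRing R] [Uncountable Y] :
    ∃ J : Set Y, CycIndep R J ∧ ¬ J.Countable := by
  obtain ⟨J, hJ⟩ := zorn_subset {J : Set Y | CycIndep R J} (by
    intro c hc hchain
    refine ⟨⋃₀ c, ⟨?_, ?_⟩, fun s hs => subset_sUnion_of_mem hs⟩
    · rintro ⟨s, hs, h0⟩
      exact (hc hs).1 h0
    · rintro y ⟨s, hs, hy⟩ r hr
      obtain ⟨T, hT, hrT⟩ := mem_span_finite_of_mem_span hr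
      obtain ⟨u, hu, hTu⟩ := hchain.directedOn.exists_mem_subset_of_finite_of_subset_sUnion
        ⟨s, hs⟩ (T.finite_toSet.insert y)
        (insert_subset ⟨s, hs, hy⟩ (hT.trans sdiff_subset))
      refine (hc hu).2 y (hTu (mem_insert _ _)) r (span_mono ?_ hrT)
      intro x hx
      exact ⟨hTu (mem_insert_of_mem _ hx), (hT hx).2⟩)
  refine ⟨J, hJ.prop, fun hcount => ?_⟩
  obtain ⟨y₀, hy0, hy⟩ := exists_disjoint_cyclic (R := R) J hcount
  have hnot : y₀ ∉ J := fun h => hy0 (by
    have := hy 1 (by rw [one_smul]; exact subset_span h)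
    rwa [one_smul] at this)
  have hind : CycIndep R (insert y₀ J) := by
    refine ⟨?_, ?_⟩
    · rintro (h | h)
      · exact hy0 h.symm
      · exact hJ.prop.1 h
    · rintro y (rfl | hyJ) r hr
      · refine hy r (span_mono ?_ hr)
        rintro x ⟨hx | hx, hx'⟩
        · exact absurd hx hx'
        · exact hx
      · have h1 : r • y ∈ span R (insert y₀ (J \ {y})) := by
          refine span_mono ?_ hr
          rintro x ⟨hx | hx, hx'⟩
          · exact Or.inl hx
          · exact Or.inr ⟨hx, hx'⟩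
        obtain ⟨a, z, hz, hrz⟩ := mem_span_insert.mp h1
        have h2 : a • y₀ ∈ span R J := by
          have : a • y₀ = r • y - z := by rw [hrz]; abel
          rw [this]
          exact sub_mem (smul_mem _ r (subset_span hyJ)) (span_mono sdiff_subset hz)
        rw [hy a h2, zero_add] at hrz
        exact hJ.prop.2 y hyJ r (hrz ▸ hz)
  exact hnot (hJ.le_of_ge hind (subset_insert _ _) (mem_insert _ _))

lemma countable_submodule [Countable R] [IsNoetherianRing R] : Countable (Submodule R R) := by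
  have : Function.Surjective fun s : Finset R => span R (s : Set R) := fun I =>
    IsNoetherian.noetherian I
  exact this.countable

lemma exists_uncountable_same_ann [Countable R] [IsNoetherianRing R] [Uncountable Y] :
    ∃ (J : Set Y) (I : Submodule R R), CycIndep R J ∧ ¬ J.Countable ∧
      ∀ y ∈ J, ∀ r : R, r • y = 0 ↔ r ∈ I := by
  obtain ⟨J, hJ, hJc⟩ := exists_uncountable_cycIndep (R := R) (Y := Y)
  have := countable_submodule (R := R)
  by_contra hcon
  apply hJc
  have hsub : J ⊆ ⋃ I : Submodule R R,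
      {y ∈ J | LinearMap.ker (LinearMap.toSpanSingleton R Y y) = I} := fun y hy =>
    mem_iUnion.mpr ⟨LinearMap.ker (LinearMap.toSpanSingleton R Y y), hy, rfl⟩
  refine (countable_iUnion fun I => ?_).mono hsub
  by_contra hc
  refine hcon ⟨_, I, hJ.mono (sep_subset _ _), hc, ?_⟩
  rintro y ⟨-, rfl⟩ r
  rfl

lemma CycIndep.eq_zero {J : Set Y} (h : CycIndep R J) (T : Finset Y) (hT : (T : Set Y) ⊆ J)
    (x : Y) (hx : x ∈ span R (T : Set Y)) (hx' : x ∈ span R (J \ T)) : x = 0 := by
  classical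
  induction T using Finset.induction_on with
  | empty => simpa using hx
  | insert t T ht ih =>
    rw [Finset.coe_insert] at hT hx hx'
    obtain ⟨a, z, hz, hxz⟩ := mem_span_insert.mp hx
    have h1 : a • t ∈ span R (J \ {t}) := by
      have : a • t = x - z := by rw [hxz]; abel
      rw [this]
      refine sub_mem (span_mono ?_ hx') (span_mono ?_ hz)
      · exact sdiff_subset_sdiff_right (singleton_subset_iff.mpr (mem_insert _ _))
      · intro y hy
        refine ⟨hT (mem_insert_of_mem _ hy), fun h => ht ?_⟩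
        rw [← mem_singleton_iff.mp h]; exact hy
    rw [h.2 t (hT (mem_insert _ _)) a h1, zero_add] at hxz
    refine ih ((subset_insert _ _).trans hT) (hxz ▸ hz) (span_mono ?_ hx')
    exact sdiff_subset_sdiff_right (subset_insert _ _)

lemma CycIndep.not_mem_span_diff {J : Set Y} (h : CycIndep R J) (I : Submodule R R)
    (hI : ∀ y ∈ J, ∀ r : R, r • y = 0 ↔ r ∈ I) (y₀ : Y) (hy₀ : y₀ ∈ J) :
    y₀ ∉ span R {x | ∃ y ∈ J, ∃ y' ∈ J, x = y - y'} := by
  classical
  intro hmem
  let lc : (Y →₀ R) →ₗ[R] Y := Finsupp.linearCombination R id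
  let σ : (Y →₀ R) →ₗ[R] R := Finsupp.linearCombination R (fun _ => (1 : R))
  let N : Submodule R Y := (Finsupp.supported R R J ⊓ I.comap σ).map lc
  have hN : span R {x | ∃ y ∈ J, ∃ y' ∈ J, x = y - y'} ≤ N := by
    rw [span_le]
    rintro _ ⟨y, hy, y', hy', rfl⟩
    refine ⟨Finsupp.single y 1 - Finsupp.single y' 1, ⟨?_, ?_⟩, ?_⟩
    · exact sub_mem (Finsupp.single_mem_supported R 1 hy) (Finsupp.single_mem_supported R 1 hy')
    · show σ _ ∈ I
      simp [σ]
    · simp [lc]
  obtain ⟨c, ⟨hc1, hc2⟩, hc3⟩ := hN hmem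
  let d : Y →₀ R := c - Finsupp.single y₀ 1
  have hd1 : d ∈ Finsupp.supported R R J :=
    sub_mem hc1 (Finsupp.single_mem_supported R 1 hy₀)
  have hd2 : lc d = 0 := by
    simp only [d, map_sub, hc3]
    simp [lc]
  have hd3 : ∀ y ∈ d.support, d y ∈ I := by
    intro y hy
    have hyJ : y ∈ J := hd1 hy
    refine (hI y hyJ _).mp (h.2 y hyJ _ ?_)
    have h1 : d y • y = - lc (d.erase y) := by
      have h2 : lc (Finsupp.single y (d y) + d.erase y) = 0 := by
        rw [Finsupp.single_add_erase]; exact hd2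
      rw [map_add] at h2
      have h3 : lc (Finsupp.single y (d y)) = d y • y := by simp [lc]
      rw [← h3]
      exact eq_neg_of_add_eq_zero_left h2
    rw [h1]
    refine neg_mem ?_
    have h4 : lc (d.erase y) ∈ span R (id '' (J \ {y})) := by
      rw [Finsupp.mem_span_image_iff_linearCombination]
      refine ⟨d.erase y, ?_, rfl⟩
      intro x hx
      rw [Finsupp.support_erase, Finset.coe_erase] at hx
      exact ⟨hd1 hx.1, hx.2⟩
    rwa [image_id] at h4
  have hd4 : σ d ∈ I := by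
    simp only [σ, Finsupp.linearCombination_apply, Finsupp.sum, smul_eq_mul, mul_one]
    exact I.sum_mem hd3
  have h1 : (1 : R) ∈ I := by
    have h2 : σ c - σ d = 1 := by simp [d, σ]
    rw [← h2]
    exact sub_mem hc2 hd4
  have := (hI y₀ hy₀ 1).mpr h1
  rw [one_smul] at this
  exact h.1 (this ▸ hy₀)

/-- The module theoretic core. -/
theorem exists_family [Countable R] [IsNoetherianRing R] [Uncountable Y] :
    ∃ (S : Set Y → Submodule R Y) (M : Submodule R Y) (y₀ : Y), Antitone S ∧
      (∀ x, (∀ C : Set Y, C.Countable → x ∈ S C) → x = 0) ∧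
      (∀ C : Set Y, C.Countable → y₀ ∈ M ⊔ S C) ∧ y₀ ∉ M := by
  obtain ⟨J, I, hJ, hJc, hI⟩ := exists_uncountable_same_ann (R := R) (Y := Y)
  have hne : ∀ C : Set Y, C.Countable → (J \ C).Nonempty := by
    intro C hC
    by_contra h
    rw [not_nonempty_iff_eq_empty, sdiff_eq_empty] at h
    exact hJc (hC.mono h)
  obtain ⟨y₀, hy₀, -⟩ := hne ∅ countable_empty
  refine ⟨fun C => span R (J \ C), span R {x | ∃ y ∈ J, ∃ y' ∈ J, x = y - y'}, y₀,
    fun C C' h => span_mono (sdiff_subset_sdiff_right h), fun x hx => ?_, fun C hC => ?_,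
    hJ.not_mem_span_diff I hI y₀ hy₀⟩
  · obtain ⟨T, hT, hxT⟩ := mem_span_finite_of_mem_span (hx ∅ countable_empty)
    exact hJ.eq_zero T (hT.trans sdiff_subset) x hxT (hx T T.countable_toSet)
  · obtain ⟨y, hy⟩ := hne C hC
    refine mem_sup.mpr ⟨y₀ - y, subset_span ⟨y₀, hy₀, y, hy.1, rfl⟩, y, subset_span hy, by abel⟩

end ring

/-- The same for a group acting through a finite quotient on an uncountable set of invariants. -/
theorem exists_invariant_family {G X : Type*} [Group G] [AddCommGroup X]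
    (ρ : Representation ℤ G X) (H : Subgroup G) [H.Normal] [Finite (G ⧸ H)]
    (hunc : ¬ {x : X | ∀ h ∈ H, ρ h x = x}.Countable) :
    ∃ (S : Set X → Submodule ℤ X) (M : Submodule ℤ X) (y₀ : X), Antitone S ∧
      (∀ C g x, x ∈ S C → ρ g x ∈ S C) ∧ (∀ g x, x ∈ M → ρ g x ∈ M) ∧
      (∀ x, (∀ C : Set X, C.Countable → x ∈ S C) → x = 0) ∧
      (∀ C : Set X, C.Countable → y₀ ∈ M ⊔ S C) ∧ y₀ ∉ M := by
  let ρ' := ρ.quotientToInvariants H
  have : Countable (MonoidAlgebra ℤ (G ⧸ H)) := Finsupp.Countable.of_moduleFinite (R := ℤ)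
  have : IsNoetherianRing (MonoidAlgebra ℤ (G ⧸ H)) := IsNoetherianRing.of_finite ℤ _
  let ι : ρ'.asModule →+ X :=
    ((Representation.invariants (ρ.comp H.subtype)).subtype.toAddMonoidHom).comp
      ρ'.asModuleEquiv.toAddMonoidHom
  have hι : Function.Injective ι := Subtype.val_injective
  have : Uncountable ρ'.asModule := by
    rw [uncountable_iff_not_countable]
    intro hc
    refine hunc ((countable_range ι).mono fun x hx => ?_)
    exact ⟨ρ'.asModuleEquiv.symm ⟨x, fun h => hx h.1 h.2⟩, rfl⟩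
  have hg : ∀ (g : G) (y : ρ'.asModule),
      ι (MonoidAlgebra.single (g : G ⧸ H) (1 : ℤ) • y) = ρ g (ι y) := by
    intro g y
    rw [Representation.single_smul, one_smul]
    rfl
  let P : Submodule (MonoidAlgebra ℤ (G ⧸ H)) ρ'.asModule → Submodule ℤ X := fun N =>
    (N.toAddSubgroup.map ι).toIntSubmodule
  have hP : ∀ N x, x ∈ P N ↔ ∃ y ∈ N, ι y = x := fun _ _ => Iff.rfl
  have hinv : ∀ N g x, x ∈ P N → ρ g x ∈ P N := by
    rintro N g _ ⟨y, hy, rfl⟩
    exact ⟨_, N.smul_mem _ hy, hg g y⟩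
  obtain ⟨S, M, y₀, h1, h2, h3, h4⟩ :=
    exists_family (R := MonoidAlgebra ℤ (G ⧸ H)) (Y := ρ'.asModule)
  refine ⟨fun C => P (S (ι ⁻¹' C)), P M, ι y₀, ?_, fun C => hinv _, hinv M, ?_, ?_, ?_⟩
  · rintro C C' h _ ⟨y, hy, rfl⟩
    exact ⟨y, h1 (preimage_mono h) hy, rfl⟩
  · intro x hx
    obtain ⟨y, -, rfl⟩ := hx ∅ countable_empty
    rw [h2 y fun C hC => ?_, map_zero]
    obtain ⟨y', hy', hyy⟩ := hx (ι '' C) (hC.image ι)
    rw [preimage_image_eq _ hι] at hy'
    rw [← hι hyy]
    exact hy'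
  · intro C hC
    obtain ⟨a, ha, b, hb, hab⟩ := mem_sup.mp (h3 _ (hC.preimage hι))
    exact mem_sup.mpr ⟨ι a, ⟨a, ha, rfl⟩, ι b, ⟨b, hb, rfl⟩, by rw [← map_add, hab]⟩
  · rintro ⟨y, hy, hyy⟩
    exact h4 (hι hyy ▸ hy)

end Pool.Agent.Lib.MP_a4feb0_gt
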