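import Mathlib
import Pool.Agent.Lib.MP_a4feb0_gt.Algebra

-- part Pool.Agent.Lib.MP_a4feb0_gt.Defs
section

set_option autoImplicit false

open Topology Pointwise

namespace Pool.Agent.Lib.MP_a4feb0_gt

/-- The topology of `G` admits no strictly coarser Hausdorff group topology
(`τ ≤ σ` means that every `σ`-open set is `τ`-open). -/
def IsMinimalGroup (G : Type*) [Group G] [τ : TopologicalSpace G] : Prop :=
  ∀ σ : TopologicalSpace G, @IsTopologicalGroup G σ _ → @T2Space G σ → τ ≤ σ → σ = τ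

/-- Every quotient of `G` by a closed normal subgroup is minimal. -/
def IsTotallyMinimal (G : Type*) [Group G] [TopologicalSpace G] : Prop :=
  ∀ (N : Subgroup G) [N.Normal], IsClosed (N : Set G) → IsMinimalGroup (G ⧸ N)

/-- Finitely many left translates of any neighbourhood of the identity cover `G`. -/
def IsPrecompactGroup (G : Type*) [Group G] [TopologicalSpace G] : Prop :=
  ∀ U ∈ 𝓝 (1 : G), ∃ F : Set G, F.Finite ∧ F * U = Set.univ

/-- Every point in the closure of a set is in the closure of a countable subset. -/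
def HasCountableTightness (X : Type*) [TopologicalSpace X] : Prop :=
  ∀ (A : Set X) (x : X), x ∈ closure A → ∃ B : Set X, B ⊆ A ∧ B.Countable ∧ x ∈ closure B

end Pool.Agent.Lib.MP_a4feb0_gt
end

-- part Pool.Agent.Lib.MP_a4feb0_gt.PeterWeyl
section

set_option autoImplicit false
set_option linter.unusedSectionVars false

open Filter Topology Set MeasureTheory

namespace Pool.Agent.Lib.MP_a4feb0_gt

section compact

variable {K : Type*} [AddCommGroup K] [TopologicalSpace K] [IsTopologicalAddGroup K]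
  [CompactSpace K] [T2Space K] [MeasurableSpace K] [BorelSpace K]

/-- Translation operator on continuous functions. -/
noncomputable def transl (g : K) : C(K, ℂ) →L[ℂ] C(K, ℂ) :=
  ContinuousMap.compCLM ℂ ℂ ⟨fun x => x + g, by fun_prop⟩

@[simp] lemma transl_apply (g : K) (u : C(K, ℂ)) (x : K) : transl g u x = u (x + g) := rfl

lemma transl_norm_le (g : K) : ‖(transl g : C(K, ℂ) →L[ℂ] C(K, ℂ))‖ ≤ 1 := by
  refine ContinuousLinearMap.opNorm_le_bound _ zero_le_one fun u => ?_
  rw [one_mul, ContinuousMap.norm_le _ (norm_nonneg _)]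
  intro x
  exact u.norm_coe_le_norm _

lemma transl_mul (g g' : K) : (transl g : C(K, ℂ) →L[ℂ] C(K, ℂ)) * transl g' = transl (g + g') := by
  ext u x
  simp [add_assoc]

lemma transl_zero : (transl (0 : K) : C(K, ℂ) →L[ℂ] C(K, ℂ)) = 1 := by
  ext u x
  simp

lemma continuous_transl (f : C(K, ℂ)) : Continuous fun g : K => transl g f := by
  refine ContinuousMap.continuous_of_continuous_uncurry _ ?_
  show Continuous fun p : K × K => f (p.2 + p.1)
  fun_prop

/-- The kernel section `x ↦ f (z - x)`. -/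
noncomputable def kern (f : C(K, ℂ)) (z : K) : C(K, ℂ) := ⟨fun x => f (z - x), by fun_prop⟩

lemma continuous_kern (f : C(K, ℂ)) : Continuous (kern f) := by
  refine ContinuousMap.continuous_of_continuous_uncurry _ ?_
  show Continuous fun p : K × K => f (p.1 - p.2)
  fun_prop

variable (μ : Measure K) [μ.IsAddHaarMeasure]

lemma integrable_cont {E : Type*} [NormedAddCommGroup E] {F : K → E} (hF : Continuous F) :
    Integrable F μ :=
  hF.integrable_of_hasCompactSupport (HasCompactSupport.of_compactSpace F)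

/-- Convolution as a function. -/
noncomputable def convFun (f u : C(K, ℂ)) : C(K, ℂ) := ∫ z, u z • kern f z ∂μ

lemma convFun_apply (f u : C(K, ℂ)) (x : K) :
    convFun μ f u x = ∫ z, u z * f (z - x) ∂μ := by
  have h : Integrable (fun z => u z • kern f z) μ :=
    integrable_cont μ (u.continuous.smul (continuous_kern f))
  exact ((ContinuousMap.evalCLM ℂ x).integral_comp_comm h).symm

/-- Convolution as a bilinear map. -/
noncomputable def convLin : C(K, ℂ) →ₗ[ℂ] C(K, ℂ) →ₗ[ℂ] C(K, ℂ) :=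
  LinearMap.mk₂ ℂ (convFun μ)
    (fun f f' u => by
      ext x
      simp only [convFun_apply, ContinuousMap.add_apply, mul_add]
      exact integral_add (integrable_cont μ (by fun_prop)) (integrable_cont μ (by fun_prop)))
    (fun c f u => by
      ext x
      simp only [convFun_apply, ContinuousMap.smul_apply, smul_eq_mul]
      rw [← integral_const_mul]
      congr 1; funext z; ring)
    (fun f u u' => by
      ext x
      simp only [convFun_apply, ContinuousMap.add_apply, add_mul]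
      exact integral_add (integrable_cont μ (by fun_prop)) (integrable_cont μ (by fun_prop)))
    (fun c f u => by
      ext x
      simp only [convFun_apply, ContinuousMap.smul_apply, smul_eq_mul]
      rw [← integral_const_mul]
      congr 1; funext z; ring)

/-- Convolution as a continuous bilinear map. -/
noncomputable def conv : C(K, ℂ) →L[ℂ] C(K, ℂ) →L[ℂ] C(K, ℂ) :=
  LinearMap.mkContinuous₂ (convLin μ) (μ.real univ) (fun f u => by
    rw [ContinuousMap.norm_le _ (by positivity)]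
    intro x
    show ‖convFun μ f u x‖ ≤ _
    rw [convFun_apply]
    have h : ∀ᵐ z ∂μ, ‖u z * f (z - x)‖ ≤ ‖f‖ * ‖u‖ := Eventually.of_forall fun z => by
      rw [norm_mul, mul_comm]
      exact mul_le_mul (f.norm_coe_le_norm _) (u.norm_coe_le_norm _) (norm_nonneg _)
        (norm_nonneg _)
    refine (norm_integral_le_of_norm_le_const h).trans (le_of_eq ?_)
    ring)

lemma conv_apply (f u : C(K, ℂ)) (x : K) : conv μ f u x = ∫ z, u z * f (z - x) ∂μ :=
  convFun_apply μ f u x

lemma transl_mul_conv (g : K) (f : C(K, ℂ)) : transl g * conv μ f = conv μ (transl (-g) f) := by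
  ext u x
  simp only [mul_apply_eq_comp, transl_apply, conv_apply]
  congr 1; funext z; congr 2; abel

lemma conv_mul_transl (g : K) (f : C(K, ℂ)) : conv μ f * transl g = transl g * conv μ f := by
  ext u x
  simp only [mul_apply_eq_comp, transl_apply, conv_apply]
  rw [← integral_add_right_eq_self (fun z => u z * f (z - (x + g))) g]
  congr 1; funext z; congr 2; abel

lemma conv_symm (h : C(K, ℂ)) (hh : ∀ y, h (-y) = (starRingEnd ℂ) (h y)) (u v : C(K, ℂ)) :
    inner ℂ (ContinuousMap.toLp 2 μ ℂ (conv μ h u)) (ContinuousMap.toLp 2 μ ℂ v) =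
      inner ℂ (ContinuousMap.toLp 2 μ ℂ u) (ContinuousMap.toLp 2 μ ℂ (conv μ h v)) := by
  rw [ContinuousMap.inner_toLp, ContinuousMap.inner_toLp]
  simp only [conv_apply]
  have e1 : ∀ x, v x * (starRingEnd ℂ) (∫ z, u z * h (z - x) ∂μ) =
      ∫ z, v x * h (x - z) * (starRingEnd ℂ) (u z) ∂μ := by
    intro x
    rw [← integral_conj, ← integral_const_mul]
    congr 1; funext z
    rw [map_mul, ← hh, neg_sub]; ring
  have e2 : ∀ z, (∫ x, v x * h (x - z) ∂μ) * (starRingEnd ℂ) (u z) =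
      ∫ x, v x * h (x - z) * (starRingEnd ℂ) (u z) ∂μ := by
    intro z
    rw [integral_mul_const]
  simp only [e1, e2]
  refine integral_integral_swap_of_hasCompactSupport
    (f := fun x z => v x * h (x - z) * (starRingEnd ℂ) (u z)) ?_
    (HasCompactSupport.of_compactSpace _)
  show Continuous fun p : K × K => v p.1 * h (p.1 - p.2) * (starRingEnd ℂ) (u p.2)
  fun_prop

end compact

/-- Lower bound for powers of an operator that is symmetric for an auxiliary inner product. -/
lemma pow_lower_bound {E H : Type*} [NormedAddCommGroup E] [NormedSpace ℂ E]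
    [NormedAddCommGroup H] [InnerProductSpace ℂ H] (J : E →L[ℂ] H) (T : E →L[ℂ] E)
    (hT : ∀ u v, inner ℂ (J (T u)) (J v) = inner ℂ (J u) (J (T v))) (u : E)
    (hu : J (T u) ≠ 0) : ∃ b C : ℝ, 0 < b ∧ 0 < C ∧ ∀ j : ℕ, b ^ (2 ^ j) ≤ C * ‖T ^ (2 ^ j)‖ := by
  have hpow : ∀ (m : ℕ) (u v : E), inner ℂ (J ((T ^ m) u)) (J v) = inner ℂ (J u) (J ((T ^ m) v)) := by
    intro m
    induction m with
    | zero => intro u v; simp
    | succ m ih =>
      intro u v
      rw [pow_succ, mul_apply_eq_comp, ih, hT, ← mul_apply_eq_comp,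
        ← pow_succ', ← pow_succ]
  have hu0 : J u ≠ 0 := by
    intro h
    have := hT u (T u)
    rw [h, inner_zero_left, inner_self_eq_zero] at this
    exact hu this
  have hn : 0 < ‖J u‖ := norm_pos_iff.mpr hu0
  have hb : 0 < ‖J (T u)‖ / ‖J u‖ := div_pos (norm_pos_iff.mpr hu) hn
  have key : ∀ j : ℕ, (‖J (T u)‖ / ‖J u‖) ^ (2 ^ j) ≤ ‖J ((T ^ (2 ^ j)) u)‖ / ‖J u‖ := by
    intro j
    induction j with
    | zero => simp
    | succ j ih =>
      have h1 : ‖J ((T ^ (2 ^ j)) u)‖ ^ 2 ≤ ‖J u‖ * ‖J ((T ^ (2 ^ (j + 1))) u)‖ := by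
        have h2 := hpow (2 ^ j) u ((T ^ (2 ^ j)) u)
        rw [← mul_apply_eq_comp, ← pow_add, ← two_mul, ← pow_succ'] at h2
        have h3 := norm_inner_le_norm (𝕜 := ℂ) (J u) (J ((T ^ (2 ^ (j + 1))) u))
        rw [← h2, inner_self_eq_norm_sq_to_K] at h3
        simpa using h3
      rw [pow_succ 2 j, pow_mul, ← pow_succ 2 j]
      refine (pow_le_pow_left₀ (by positivity) ih 2).trans ?_
      rw [div_pow, div_le_div_iff₀ (by positivity) hn]
      nlinarith
  refine ⟨_, ‖J‖ * ‖u‖ / ‖J u‖ + 1, hb, by positivity, fun j => (key j).trans ?_⟩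
  have h4 : ‖J ((T ^ (2 ^ j)) u)‖ ≤ ‖J‖ * (‖T ^ (2 ^ j)‖ * ‖u‖) :=
    (J.le_opNorm _).trans (mul_le_mul_of_nonneg_left ((T ^ (2 ^ j)).le_opNorm u) (norm_nonneg _))
  rw [div_le_iff₀ hn]
  have h5 : (‖J‖ * ‖u‖ / ‖J u‖ + 1) * ‖T ^ (2 ^ j)‖ * ‖J u‖ =
      ‖J‖ * (‖T ^ (2 ^ j)‖ * ‖u‖) + ‖T ^ (2 ^ j)‖ * ‖J u‖ := by
    field_simp
  rw [h5]
  have : 0 ≤ ‖T ^ (2 ^ j)‖ * ‖J u‖ := by positivity
  linarith

/-- An element of a commutative Banach algebra whose powers do not decay superexponentially is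
detected by a character. -/
lemma exists_character_ne_zero {A : Type*} [NormedCommRing A] [NormedAlgebra ℂ A]
    [CompleteSpace A] (a : A) (b C : ℝ) (hb : 0 < b) (hC : 0 < C)
    (h : ∀ j : ℕ, b ^ (2 ^ j) ≤ C * ‖a ^ (2 ^ j)‖) :
    ∃ χ : WeakDual.characterSpace ℂ A, χ a ≠ 0 := by
  by_contra hne
  push Not at hne
  have hsp : spectralRadius ℂ a = 0 := by
    refine le_antisymm ?_ zero_le
    refine iSup₂_le fun z hz => ?_
    obtain ⟨χ, hχ⟩ := WeakDual.CharacterSpace.mem_spectrum_iff_exists.mp hz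
    rw [← hχ, hne χ]
    simp
  have hlim := spectrum.pow_norm_pow_one_div_tendsto_nhds_spectralRadius a
  rw [hsp] at hlim
  have hev : ∀ᶠ n : ℕ in atTop, ENNReal.ofReal (‖a ^ n‖ ^ (1 / n : ℝ)) < ENNReal.ofReal (b / 2) :=
    hlim.eventually (gt_mem_nhds (by simpa using hb))
  obtain ⟨N, hN⟩ := Filter.eventually_atTop.mp hev
  obtain ⟨M, hM⟩ := exists_nat_gt C
  have hj : N + M < 2 ^ (N + M) := Nat.lt_two_pow_self
  set n := 2 ^ (N + M) with hn
  have hn0 : n ≠ 0 := by omega
  have h1 := hN n (by omega)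
  rw [ENNReal.ofReal_lt_ofReal_iff (by positivity)] at h1
  have h2 : ‖a ^ n‖ ≤ (b / 2) ^ n := by
    have := pow_le_pow_left₀ (by positivity) h1.le n
    rwa [one_div, Real.rpow_inv_natCast_pow (norm_nonneg _) hn0] at this
  have h3 := h (N + M)
  rw [← hn] at h3
  have h4 : b ^ n ≤ C * (b / 2) ^ n := h3.trans (mul_le_mul_of_nonneg_left h2 hC.le)
  rw [div_pow, mul_div_assoc', le_div_iff₀ (by positivity)] at h4
  have h5 : (2 : ℝ) ^ n ≤ C := by
    have hbn : 0 < b ^ n := by positivity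
    nlinarith
  have h6 : (n : ℝ) < 2 ^ n := by exact_mod_cast Nat.lt_two_pow_self
  have h7 : (M : ℝ) ≤ n := by exact_mod_cast (by omega : M ≤ n)
  linarith

/-- A character from a contractive representation in a Banach algebra. -/
lemma exists_char_of_rep {K B : Type*} [AddCommGroup K] [TopologicalSpace K] [NormedRing B]
    [NormedAlgebra ℂ B] [CompleteSpace B] (V : K → B) (hmul : ∀ g g', V g * V g' = V (g + g'))
    (hzero : V 0 = 1) (hnorm : ∀ g, ‖V g‖ ≤ 1) (T : B) (hT : ∀ g, T * V g = V g * T)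
    (hcont : Continuous fun g => V g * T) (g₀ : K) (b C : ℝ) (hb : 0 < b) (hC : 0 < C)
    (hpow : ∀ j : ℕ, b ^ (2 ^ j) ≤ C * ‖(V g₀ * T + V (-g₀) * T - (2 : ℂ) • T) ^ (2 ^ j)‖) :
    ∃ γ : K → ℂ, Continuous γ ∧ (∀ x y, γ (x + y) = γ x * γ y) ∧ (∀ x, ‖γ x‖ = 1) ∧
      γ g₀ ≠ 1 := by
  let gens : Set B := insert T (range V)
  have hcomm : gens ⊆ Set.centralizer gens := by
    rintro a (rfl | ⟨g, rfl⟩) b (rfl | ⟨g', rfl⟩)
    · rfl
    · exact (hT g').symm
    · exact hT g
    · rw [hmul, hmul, add_comm]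
  let S : Subalgebra ℂ B := Subalgebra.centralizer ℂ (Set.centralizer gens)
  have hSc : IsClosed (S : Set B) := Set.isClosed_centralizer _
  have hgS : ∀ a ∈ gens, a ∈ S := fun a ha => Set.subset_centralizer_centralizer ha
  let _ : NormedCommRing S := { (inferInstance : NormedRing S) with
    mul_comm := fun a b => Subtype.ext (by
      have hb : (b : B) ∈ Set.centralizer gens := Set.centralizer_subset hcomm b.2
      exact (a.2 _ hb).symm) }
  have : CompleteSpace S := hSc.completeSpace_coe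
  let U : K → S := fun g => ⟨V g, hgS _ (Or.inr ⟨g, rfl⟩)⟩
  let Tf : S := ⟨T, hgS _ (Or.inl rfl)⟩
  have hUmul : ∀ g g', U (g + g') = U g * U g' := fun g g' => Subtype.ext (hmul g g').symm
  have hU0 : U 0 = 1 := Subtype.ext hzero
  let a : S := U g₀ * Tf + U (-g₀) * Tf - (2 : ℂ) • Tf
  obtain ⟨χ, hχ⟩ := exists_character_ne_zero a b C hb hC hpow
  have hχa : χ a = (χ (U g₀) + χ (U (-g₀)) - 2) * χ Tf := by
    simp only [a, map_sub, map_add, map_mul, map_smul, smul_eq_mul]; ring
  rw [hχa] at hχ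
  have hT0 : χ Tf ≠ 0 := right_ne_zero_of_mul hχ
  have hinv : ∀ g, χ (U g) * χ (U (-g)) = 1 := fun g => by
    rw [← map_mul, ← hUmul, add_neg_cancel, hU0, map_one]
  have hle : ∀ g, ‖χ (U g)‖ ≤ 1 := fun g => by
    have h1 : ‖(1 : S)‖ ≤ 1 := by rw [← hU0]; exact hnorm _
    have h2 : ‖U g‖ ≤ 1 := hnorm _
    refine (AlgHom.norm_apply_le_self_mul_norm_one χ (U g)).trans ?_
    exact mul_le_one₀ h2 (norm_nonneg _) h1
  refine ⟨fun g => χ (U g), ?_, fun x y => by simp only [hUmul, map_mul], fun g => ?_, ?_⟩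
  · have hc : Continuous fun g : K => U g * Tf :=
      Continuous.subtype_mk (f := fun g : K => V g * T) hcont _
    have : (fun g => χ (U g)) = fun g => χ (U g * Tf) / χ Tf := by
      funext g; rw [map_mul]; field_simp
    rw [this]
    exact ((map_continuous χ).comp hc).div_const _
  · have h1 := congrArg norm (hinv g)
    rw [norm_mul, norm_one] at h1
    have h2 := hle g
    have h3 := hle (-g)
    have h4 := norm_nonneg (χ (U g))
    have h5 := norm_nonneg (χ (U (-g)))
    show ‖χ (U g)‖ = 1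
    generalize ‖χ (U g)‖ = p at *
    generalize ‖χ (U (-g))‖ = q at *
    nlinarith
  · intro h1
    have h1' : χ (U g₀) = 1 := h1
    have h2 := hinv g₀
    rw [h1', one_mul] at h2
    rw [h1', h2] at hχ
    norm_num at hχ

/-- Characters separate the points of a compact abelian group. -/
theorem exists_char_compact {K : Type*} [AddCommGroup K] [TopologicalSpace K]
    [IsTopologicalAddGroup K] [CompactSpace K] [T2Space K] (g₀ : K) (hg : g₀ ≠ 0) :
    ∃ γ : K → ℂ, Continuous γ ∧ (∀ x y, γ (x + y) = γ x * γ y) ∧ (∀ x, ‖γ x‖ = 1) ∧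
      γ g₀ ≠ 1 := by
  borelize K
  let μ : Measure K := Measure.addHaar
  obtain ⟨f₁, hf0, hf1, -⟩ := exists_continuous_zero_one_of_isClosed
    (s := ({g₀, -g₀} : Set K)) (t := {0}) (Set.toFinite _).isClosed isClosed_singleton
    (by
      rw [Set.disjoint_singleton_right]
      simp only [mem_insert_iff, mem_singleton_iff, not_or]
      exact ⟨hg.symm, fun h => hg (neg_eq_zero.mp h.symm)⟩)
  let f : C(K, ℂ) := ⟨fun x => ((f₁ x * f₁ (-x) : ℝ) : ℂ), by fun_prop⟩
  have hfe : ∀ y, f (-y) = f y := fun y => by simp [f, mul_comm]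
  have hfr : ∀ y, (starRingEnd ℂ) (f y) = f y := fun y => Complex.conj_ofReal _
  have hf00 : f 0 = 1 := by
    have : f₁ 0 = 1 := hf1 rfl
    simp [f, this]
  have hfg : f g₀ = 0 := by
    have : f₁ g₀ = 0 := hf0 (by simp)
    simp [f, this]
  let h : C(K, ℂ) := transl (-g₀) f + transl g₀ f - (2 : ℂ) • f
  have hh : ∀ y, h (-y) = (starRingEnd ℂ) (h y) := by
    intro y
    simp only [h, ContinuousMap.sub_apply, ContinuousMap.add_apply, transl_apply,
      ContinuousMap.smul_apply, smul_eq_mul, map_sub, map_add, map_mul, hfr, hfe]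
    rw [← hfe (-y + -g₀), ← hfe (-y + g₀)]
    simp only [neg_add_rev, neg_neg]
    rw [add_comm g₀ y, add_comm (-g₀) y, map_ofNat]
    ring
  have h0 : h 0 ≠ 0 := by
    simp only [h, ContinuousMap.sub_apply, ContinuousMap.add_apply, transl_apply,
      ContinuousMap.smul_apply, smul_eq_mul, zero_add, hfe, hfg, hf00]
    norm_num
  have hTu : ContinuousMap.toLp 2 μ ℂ (conv μ h (star h)) ≠ 0 := by
    intro hz
    have h1 : conv μ h (star h) = 0 :=
      ContinuousMap.toLp_injective (p := 2) (𝕜 := ℂ) μ (by rw [hz, map_zero])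
    have h2 : conv μ h (star h) 0 = 0 := by rw [h1]; rfl
    rw [conv_apply] at h2
    have h3 : inner ℂ (ContinuousMap.toLp 2 μ ℂ h) (ContinuousMap.toLp 2 μ ℂ h) = 0 := by
      rw [ContinuousMap.inner_toLp, ← h2]
      congr 1; funext z
      simp [mul_comm]
    rw [inner_self_eq_zero] at h3
    have h4 : h = 0 := ContinuousMap.toLp_injective (p := 2) (𝕜 := ℂ) μ (by rw [h3, map_zero])
    exact h0 (by rw [h4]; rfl)
  obtain ⟨b, C, hb, hC, hpow⟩ := pow_lower_bound (ContinuousMap.toLp 2 μ ℂ) (conv μ h)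
    (conv_symm μ h hh) (star h) hTu
  refine exists_char_of_rep transl transl_mul transl_zero transl_norm_le (conv μ f)
    (fun g => conv_mul_transl μ g f) ?_ g₀ b C hb hC ?_
  · simp only [transl_mul_conv]
    exact (conv μ).continuous.comp ((continuous_transl f).comp continuous_neg)
  · have : transl g₀ * conv μ f + transl (-g₀) * conv μ f - (2 : ℂ) • conv μ f = conv μ h := by
      rw [transl_mul_conv, transl_mul_conv, neg_neg]
      simp only [h, map_sub, map_add, map_smul]
    rw [this]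
    exact hpow

end Pool.Agent.Lib.MP_a4feb0_gt
end

-- part Pool.Agent.Lib.MP_a4feb0_gt.Precompact
section

set_option autoImplicit false

open Filter Topology Set Pointwise

namespace Pool.Agent.Lib.MP_a4feb0_gt

lemma exists_symm3 {G : Type*} [Group G] [TopologicalSpace G] [IsTopologicalGroup G]
    {U : Set G} (hU : U ∈ 𝓝 (1 : G)) :
    ∃ W ∈ 𝓝 (1 : G), (∀ w ∈ W, w⁻¹ ∈ W) ∧ ∀ a ∈ W, ∀ b ∈ W, ∀ c ∈ W, a * b * c ∈ U := by
  obtain ⟨V, hV, hV4⟩ := exists_nhds_one_split4 hU
  refine ⟨V ∩ V⁻¹, inter_mem hV (inv_mem_nhds_one G hV), fun w hw => ⟨hw.2, by simpa using hw.1⟩,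
    fun a ha b hb c hc => ?_⟩
  simpa using hV4 ha.1 hb.1 hc.1 (mem_of_mem_nhds hV)

lemma IsPrecompactGroup.of_surjective {G H : Type*} [Group G] [TopologicalSpace G] [Group H]
    [TopologicalSpace H] (hG : IsPrecompactGroup G) (f : G →* H) (hf : Continuous f)
    (hs : Function.Surjective f) : IsPrecompactGroup H := by
  intro U hU
  have h1 : f ⁻¹' U ∈ 𝓝 (1 : G) := hf.continuousAt.preimage_mem_nhds (by rwa [map_one])
  obtain ⟨F, hF, hFU⟩ := hG _ h1
  refine ⟨f '' F, hF.image f, eq_univ_of_forall fun y => ?_⟩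
  obtain ⟨x, rfl⟩ := hs y
  have hx : x ∈ F * (f ⁻¹' U) := by rw [hFU]; exact mem_univ x
  obtain ⟨a, ha, b, hb, rfl⟩ := hx
  exact ⟨f a, mem_image_of_mem f ha, f b, hb, (map_mul f a b).symm⟩

lemma IsPrecompactGroup.subgroup {G : Type*} [Group G] [TopologicalSpace G]
    [IsTopologicalGroup G] (hG : IsPrecompactGroup G) (A : Subgroup G) : IsPrecompactGroup A := by
  classical
  intro U hU
  rw [nhds_subtype_eq_comap, mem_comap] at hU
  obtain ⟨V, hV, hVU⟩ := hU
  obtain ⟨W, hW, hWi, hW3⟩ := exists_symm3 (G := G) hV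
  obtain ⟨F, hF, hFW⟩ := hG W hW
  let p : G → A := fun f => if h : ∃ a : A, f⁻¹ * a ∈ W then h.choose else 1
  refine ⟨p '' F, hF.image p, eq_univ_of_forall fun a => ?_⟩
  have ha : (a : G) ∈ F * W := by rw [hFW]; exact mem_univ _
  obtain ⟨f, hf, w, hw, hfw⟩ := ha
  have hex : ∃ a : A, f⁻¹ * a ∈ W := ⟨a, by rw [← hfw]; simpa using hw⟩
  have hp : f⁻¹ * (p f : G) ∈ W := by
    simp only [p, dif_pos hex]
    exact hex.choose_spec
  refine ⟨p f, mem_image_of_mem p hf, (p f)⁻¹ * a, hVU ?_, by simp⟩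
  have := hW3 _ (hWi _ hp) _ hw 1 (mem_of_mem_nhds hW)
  show (((p f)⁻¹ * a : A) : G) ∈ V
  rw [Subgroup.coe_mul, Subgroup.coe_inv, ← hfw]
  simpa [mul_assoc] using this

/-- Precompact groups have small invariant neighbourhoods. -/
lemma IsPrecompactGroup.sin {G : Type*} [Group G] [TopologicalSpace G]
    [IsTopologicalGroup G] (hG : IsPrecompactGroup G) {U : Set G} (hU : U ∈ 𝓝 (1 : G)) :
    ∃ V ∈ 𝓝 (1 : G), ∀ v ∈ V, ∀ g : G, g * v * g⁻¹ ∈ U := by
  obtain ⟨W, hW, hWi, hW3⟩ := exists_symm3 (G := G) hU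
  obtain ⟨F, hF, hFW⟩ := hG W hW
  refine ⟨⋂ f ∈ F, (fun v => f⁻¹ * v * f) ⁻¹' W, ?_, fun v hv g => ?_⟩
  · refine (biInter_mem hF).mpr fun f _ => ?_
    have hc : Continuous fun v : G => f⁻¹ * v * f := by fun_prop
    exact hc.continuousAt.preimage_mem_nhds (by simpa using hW)
  · have hg : g⁻¹ ∈ F * W := by rw [hFW]; exact mem_univ _
    obtain ⟨f, hf, w, hw, hfw⟩ := hg
    have h1 : f⁻¹ * v * f ∈ W := (mem_iInter₂.mp hv) f hf
    have h2 := hW3 _ (hWi _ hw) _ h1 _ hw
    have h3 : g = w⁻¹ * f⁻¹ := by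
      rw [← mul_inv_rev]; exact inv_injective (by rw [inv_inv]; exact hfw.symm)
    rw [h3]
    simpa [mul_assoc] using h2

lemma IsPrecompactGroup.finite_quotient {G : Type*} [Group G] [TopologicalSpace G]
    (hG : IsPrecompactGroup G) (H : Subgroup G) (hH : (H : Set G) ∈ 𝓝 (1 : G)) :
    Finite (G ⧸ H) := by
  obtain ⟨F, hF, hFH⟩ := hG _ hH
  have : (univ : Set (G ⧸ H)) ⊆ (QuotientGroup.mk : G → G ⧸ H) '' F := by
    intro x _
    obtain ⟨g, rfl⟩ := QuotientGroup.mk_surjective x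
    have hg : g ∈ F * (H : Set G) := by rw [hFH]; exact mem_univ _
    obtain ⟨f, hf, h, hh, rfl⟩ := hg
    exact ⟨f, hf, (QuotientGroup.mk_mul_of_mem f hh).symm⟩
  exact Set.finite_univ_iff.mp ((hF.image _).subset this)

/-- Continuous characters separate the points of a precompact Hausdorff abelian group. -/
lemma exists_char_precompact {P : Type*} [CommGroup P] [TopologicalSpace P]
    [IsTopologicalGroup P] [T2Space P] (hP : IsPrecompactGroup P) (a : P) (ha : a ≠ 1) :
    ∃ χ : P →* Circle, Continuous χ ∧ χ a ≠ 1 := by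
  let _ : UniformSpace (Additive P) := IsTopologicalAddGroup.rightUniformSpace (Additive P)
  have : IsUniformAddGroup (Additive P) := isUniformAddGroup_of_addCommGroup
  have htb : TotallyBounded (univ : Set (Additive P)) := by
    rw [totallyBounded_iff_subset_finite_iUnion_nhds_zero]
    intro U hU
    obtain ⟨F, hF, hFU⟩ := hP U hU
    refine ⟨F, hF, fun x _ => ?_⟩
    have hx : (Additive.toMul x) ∈ F * (show Set P from U) := by rw [hFU]; exact mem_univ _
    obtain ⟨f, hf, u, hu, hfu⟩ := hx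
    exact mem_iUnion₂.mpr ⟨f, hf, u, hu, hfu⟩
  have hcomp : CompactSpace (UniformSpace.Completion (Additive P)) := by
    refine ⟨isCompact_iff_totallyBounded_isComplete.mpr ⟨?_, isComplete_univ⟩⟩
    have h1 := (htb.image (UniformSpace.Completion.uniformContinuous_coe (Additive P))).closure
    rwa [image_univ, UniformSpace.Completion.denseRange_coe.closure_range] at h1
  have hne : ((Additive.ofMul a : Additive P) : UniformSpace.Completion (Additive P)) ≠ 0 := by
    intro h
    rw [← UniformSpace.Completion.coe_zero] at h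
    have : T2Space (Additive P) := ‹T2Space P›
    exact ha (UniformSpace.Completion.coe_injective (Additive P) h)
  obtain ⟨γ, hγc, hγm, hγn, hγa⟩ := exists_char_compact _ hne
  let c : P → Circle := fun x => ⟨γ ((Additive.ofMul x : Additive P) :
    UniformSpace.Completion (Additive P)), by simp [Submonoid.unitSphere, hγn]⟩
  refine ⟨MonoidHom.mk' c fun x y => ?_, ?_, fun h => hγa ?_⟩
  · refine Circle.ext ?_
    show γ ((Additive.ofMul x + Additive.ofMul y : Additive P) :
      UniformSpace.Completion (Additive P)) = _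
    rw [UniformSpace.Completion.coe_add, hγm]
    rfl
  · exact Continuous.subtype_mk (hγc.comp
      ((UniformSpace.Completion.continuous_coe (Additive P)).comp continuous_ofMul)) _
  · exact congrArg (fun z : Circle => (z : ℂ)) h

/-- Continuous characters separate points from closed subgroups. -/
lemma exists_char_sep {A : Type*} [Group A] [TopologicalSpace A] [IsTopologicalGroup A]
    (hcomm : ∀ a b : A, a * b = b * a) (hA : IsPrecompactGroup A) (S : Subgroup A)
    (hS : IsClosed (S : Set A)) (a : A) (ha : a ∉ S) :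
    ∃ χ : A →* Circle, Continuous χ ∧ (∀ s ∈ S, χ s = 1) ∧ χ a ≠ 1 := by
  let _ : CommGroup A := { ‹Group A› with mul_comm := hcomm }
  have hP : IsPrecompactGroup (A ⧸ S) :=
    hA.of_surjective (QuotientGroup.mk' S) QuotientGroup.continuous_mk QuotientGroup.mk_surjective
  obtain ⟨χ, hc, hne⟩ := exists_char_precompact hP (a : A ⧸ S)
    (fun h => ha ((QuotientGroup.eq_one_iff a).mp h))
  refine ⟨χ.comp (QuotientGroup.mk' S), hc.comp QuotientGroup.continuous_mk, fun s hs => ?_, hne⟩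
  show χ (s : A ⧸ S) = 1
  rw [(QuotientGroup.eq_one_iff s).mpr hs, map_one]

/-- The circle has no small subgroups. -/
lemma char_eq_one_of_small {A : Type*} [Group A] (ψ : A →* Circle)
    (h : ∀ a, ‖(ψ a : ℂ) - 1‖ < 1) : ψ = 1 := by
  ext a
  by_contra hne
  have hz : (ψ a : ℂ) ≠ 1 := by simpa using hne
  set z : ℂ := ((ψ a : Circle) : ℂ) with hzdef
  have hpow : ∀ n : ℕ, ‖z ^ n - 1‖ < 1 := fun n => by
    have := h (a ^ n)
    rwa [map_pow, Circle.coe_pow] at this
  have hn : ‖z‖ = 1 := Circle.norm_coe _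
  have hd : 0 < ‖z - 1‖ := norm_pos_iff.mpr (sub_ne_zero.mpr hz)
  have hre : ∀ n : ℕ, 1 / 2 ≤ (z ^ n).re := fun n => by
    have h1 := hpow n
    have h2 : ‖z ^ n‖ = 1 := by rw [norm_pow, hn, one_pow]
    have h3 : ‖z ^ n - 1‖ ^ 2 < 1 := by nlinarith [norm_nonneg (z ^ n - 1)]
    have h4 : ‖z ^ n‖ ^ 2 = 1 := by rw [h2]; norm_num
    rw [Complex.sq_norm, Complex.normSq_apply] at h3 h4
    simp only [Complex.sub_re, Complex.one_re, Complex.sub_im, Complex.one_im, sub_zero] at h3
    nlinarith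
  obtain ⟨N, hN⟩ := exists_nat_gt (2 / ‖z - 1‖)
  have h1 : (N : ℝ) / 2 ≤ (∑ i ∈ Finset.range N, z ^ i).re := by
    rw [Complex.re_sum]
    have := Finset.card_nsmul_le_sum (Finset.range N) (fun i => (z ^ i).re) (1 / 2)
      (fun i _ => hre i)
    simp only [Finset.card_range, nsmul_eq_mul] at this
    linarith
  have h2 : ‖∑ i ∈ Finset.range N, z ^ i‖ * ‖z - 1‖ < 1 := by
    rw [← norm_mul, geom_sum_mul]
    exact hpow N
  have h3 := (Complex.re_le_norm (∑ i ∈ Finset.range N, z ^ i))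
  rw [div_lt_iff₀ hd] at hN
  nlinarith

end Pool.Agent.Lib.MP_a4feb0_gt
end

-- part Pool.Agent.Lib.MP_a4feb0_gt.Duality
section

set_option autoImplicit false

open Filter Topology Set MeasureTheory

namespace Pool.Agent.Lib.MP_a4feb0_gt

/-- On a compact abelian group a point separating group of continuous characters contains every
continuous character. -/
lemma mem_of_separating {K : Type*} [CommGroup K] [TopologicalSpace K] [IsTopologicalGroup K]
    [CompactSpace K] [T2Space K] (D : Subgroup (K →* Circle)) (hD : ∀ ψ ∈ D, Continuous ψ)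
    (hsep : ∀ k : K, (∀ ψ ∈ D, ψ k = 1) → k = 1) (χ : K →* Circle) (hχ : Continuous χ) :
    χ ∈ D := by
  by_contra hn
  borelize K
  let μ : Measure K := Measure.haar
  have hint : ∀ F : K → ℂ, Continuous F → Integrable F μ := fun F hF =>
    hF.integrable_of_hasCompactSupport (HasCompactSupport.of_compactSpace F)
  let e : D → C(K, ℂ) := fun ψ => ⟨fun k => ((ψ.1 k : Circle) : ℂ),
    continuous_subtype_val.comp (hD ψ.1 ψ.2)⟩
  let eχ : C(K, ℂ) := ⟨fun k => ((χ k : Circle) : ℂ), continuous_subtype_val.comp hχ⟩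
  let S : StarSubalgebra ℂ C(K, ℂ) :=
    { toSubalgebra := Algebra.adjoin ℂ (range e)
      star_mem' := by
        change Algebra.adjoin ℂ (range e) ≤ star (Algebra.adjoin ℂ (range e))
        refine Algebra.adjoin_le ?_
        rintro - ⟨ψ, rfl⟩
        refine Algebra.subset_adjoin ⟨ψ⁻¹, ContinuousMap.ext fun k => ?_⟩
        show (((ψ.1 k)⁻¹ : Circle) : ℂ) = (starRingEnd ℂ) ((ψ.1 k : Circle) : ℂ)
        exact Circle.coe_inv_eq_conj _ }
  have hS : Subalgebra.toSubmodule S.toSubalgebra = Submodule.span ℂ (range e) := by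
    apply Algebra.adjoin_eq_span_of_subset
    refine Subset.trans ?_ Submodule.subset_span
    intro x hx
    refine Submonoid.closure_induction (fun _ => id) ⟨1, ?_⟩ ?_ hx
    · ext1 z; rfl
    · rintro - - - - ⟨m, rfl⟩ ⟨n, rfl⟩
      refine ⟨m * n, ?_⟩
      ext1 z
      rfl
  have hsepS : S.SeparatesPoints := by
    intro x y hxy
    have : ∃ ψ ∈ D, ψ (x * y⁻¹) ≠ 1 := by
      by_contra hc
      push Not at hc
      exact hxy (mul_inv_eq_one.mp (hsep _ hc))
    obtain ⟨ψ, hψ, hne⟩ := this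
    refine ⟨_, ⟨e ⟨ψ, hψ⟩, Algebra.subset_adjoin ⟨_, rfl⟩, rfl⟩, fun h => hne ?_⟩
    have h' : ψ x = ψ y := Circle.ext h
    rw [map_mul, map_inv, h', mul_inv_cancel]
  have hdense : (Submodule.span ℂ (range e)).topologicalClosure = ⊤ := by
    rw [← hS]
    exact congr_arg (Subalgebra.toSubmodule <| StarSubalgebra.toSubalgebra ·)
      (ContinuousMap.starSubalgebra_topologicalClosure_eq_top_of_separatesPoints S hsepS)
  let L : C(K, ℂ) →L[ℂ] ℂ :=
    (innerSL ℂ (ContinuousMap.toLp 2 μ ℂ eχ)).comp (ContinuousMap.toLp 2 μ ℂ)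
  have hL : ∀ ψ : D, L (e ψ) = 0 := by
    intro ψ
    have hne : ∃ k, ψ.1 k ≠ χ k := by
      by_contra hc
      push Not at hc
      exact hn (by rw [← MonoidHom.ext hc]; exact ψ.2)
    obtain ⟨k₀, hk₀⟩ := hne
    have h1 : L (e ψ) = ∫ x, ((ψ.1 x * (χ x)⁻¹ : Circle) : ℂ) ∂μ := by
      show inner ℂ (ContinuousMap.toLp 2 μ ℂ eχ) (ContinuousMap.toLp 2 μ ℂ (e ψ)) = _
      rw [ContinuousMap.inner_toLp]
      congr 1; funext x
      rw [Circle.coe_mul, Circle.coe_inv_eq_conj]
      rfl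
    have h2 := integral_mul_left_eq_self (μ := μ)
      (fun x => ((ψ.1 x * (χ x)⁻¹ : Circle) : ℂ)) k₀
    have h3 : ∀ x, ((ψ.1 (k₀ * x) * (χ (k₀ * x))⁻¹ : Circle) : ℂ) =
        ((ψ.1 k₀ * (χ k₀)⁻¹ : Circle) : ℂ) * ((ψ.1 x * (χ x)⁻¹ : Circle) : ℂ) := by
      intro x
      rw [← Circle.coe_mul, map_mul, map_mul, mul_inv, mul_mul_mul_comm]
    simp only [h3] at h2
    rw [integral_const_mul, ← h1] at h2
    have h4 : ((ψ.1 k₀ * (χ k₀)⁻¹ : Circle) : ℂ) ≠ 1 := by
      intro h
      exact hk₀ (mul_inv_eq_one.mp (Circle.ext h))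
    by_contra h5
    exact h4 (mul_right_cancel₀ h5 (by rw [h2, one_mul]))
  have hker : (Submodule.span ℂ (range e)).topologicalClosure ≤ LinearMap.ker L.toLinearMap := by
    refine Submodule.topologicalClosure_minimal _ (Submodule.span_le.mpr ?_) L.isClosed_ker
    rintro - ⟨ψ, rfl⟩
    exact hL ψ
  rw [hdense] at hker
  have h6 : L eχ = 0 := hker Submodule.mem_top
  have h7 : ContinuousMap.toLp 2 μ ℂ eχ = 0 := inner_self_eq_zero (𝕜 := ℂ).mp h6
  have h8 : eχ = 0 := ContinuousMap.toLp_injective (p := 2) (𝕜 := ℂ) μ (by rw [h7, map_zero])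
  have h9 : eχ 1 = 0 := by rw [h8]; rfl
  exact Circle.coe_ne_zero _ h9

/-- A character that is continuous for the weak topology of a group `M` of characters
belongs to `M`. -/
lemma mem_of_tendsto_weak {A : Type*} [Group A] (M : Subgroup (A →* Circle)) (χ : A →* Circle)
    (h : Tendsto χ (comap (fun (a : A) (ψ : M) => ψ.1 a) (𝓝 1)) (𝓝 1)) : χ ∈ M := by
  let Φ : A →* (M → Circle) × Circle :=
    MonoidHom.mk' (fun a => (fun ψ => ψ.1 a, χ a)) (fun a b => by
      ext ψ <;> simp)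
  let K : Subgroup ((M → Circle) × Circle) := Φ.range.topologicalClosure
  have hKc : IsClosed (K : Set ((M → Circle) × Circle)) := Subgroup.isClosed_topologicalClosure _
  have : CompactSpace K := isCompact_iff_compactSpace.mp hKc.isCompact
  have hmul : ∀ k ∈ K, ∀ ψ ψ' : M, k.1 (ψ * ψ') = k.1 ψ * k.1 ψ' := by
    intro k hk ψ ψ'
    have hc : IsClosed {p : (M → Circle) × Circle | p.1 (ψ * ψ') = p.1 ψ * p.1 ψ'} :=
      isClosed_eq (by fun_prop) (by fun_prop)
    refine closure_minimal (s := (Φ.range : Set ((M → Circle) × Circle))) ?_ hc hk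
    rintro _ ⟨a, rfl⟩
    rfl
  have hone : ∀ k ∈ K, k.1 1 = 1 := by
    intro k hk
    have := hmul k hk 1 1
    rw [mul_one] at this
    exact mul_left_cancel (a := k.1 1) (by rw [mul_one]; exact this.symm)
  let D : Subgroup (K →* Circle) :=
    { carrier := {e | ∃ ψ : M, ∀ k : K, e k = k.1.1 ψ}
      one_mem' := ⟨1, fun k => (hone k.1 k.2).symm⟩
      mul_mem' := by
        rintro e e' ⟨ψ, hψ⟩ ⟨ψ', hψ'⟩
        exact ⟨ψ * ψ', fun k => by rw [MonoidHom.mul_apply, hψ, hψ', hmul k.1 k.2]⟩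
      inv_mem' := by
        rintro e ⟨ψ, hψ⟩
        refine ⟨ψ⁻¹, fun k => ?_⟩
        rw [MonoidHom.inv_apply, hψ]
        refine (eq_inv_of_mul_eq_one_left ?_).symm
        rw [← hmul k.1 k.2, inv_mul_cancel, hone k.1 k.2] }
  have hD : ∀ e ∈ D, Continuous e := by
    rintro e ⟨ψ, hψ⟩
    have : (e : K → Circle) = fun k => k.1.1 ψ := funext hψ
    rw [this]
    fun_prop
  have hsep : ∀ k : K, (∀ e ∈ D, e k = 1) → k = 1 := by
    intro k hk
    have h1 : k.1.1 = 1 := by
      funext ψ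
      exact hk (((Pi.evalMonoidHom (fun _ : M => Circle) ψ).comp (MonoidHom.fst _ _)).comp
        K.subtype) ⟨ψ, fun _ => rfl⟩
    have h2 : k.1.2 = 1 := by
      by_contra hne
      obtain ⟨O₁, O₂, hO₁, hO₂, h1O, h2O, hdisj⟩ := t2_separation (Ne.symm hne)
      obtain ⟨T, hT, hTO⟩ := mem_comap.mp (h (hO₁.mem_nhds h1O))
      have hnhds : T ×ˢ O₂ ∈ 𝓝 k.1 := by
        rw [← Prod.mk.eta (p := k.1), h1]
        exact prod_mem_nhds hT (hO₂.mem_nhds h2O)
      obtain ⟨_, hp, a, rfl⟩ := mem_closure_iff_nhds.mp k.2 _ hnhds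
      exact Set.disjoint_left.mp hdisj (hTO hp.1) hp.2
    exact Subtype.ext (Prod.ext h1 h2)
  obtain ⟨ψ, hψ⟩ := mem_of_separating D hD hsep ((MonoidHom.snd _ _).comp K.subtype)
    (continuous_snd.comp continuous_subtype_val)
  have : χ = ψ.1 := by
    ext1 a
    exact hψ ⟨Φ a, Subgroup.le_topologicalClosure _ ⟨a, rfl⟩⟩
  rw [this]
  exact ψ.2

end Pool.Agent.Lib.MP_a4feb0_gt
end

-- part Pool.Agent.Lib.MP_a4feb0_gt.Coarse
section

set_option autoImplicit false

open Filter Topology Set Pointwise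

namespace Pool.Agent.Lib.MP_a4feb0_gt

universe u

/-- The open mapping property. -/
def OMP (G : Type u) [Group G] [TopologicalSpace G] : Prop :=
  ∀ (H : Type u) [Group H] [TopologicalSpace H] [IsTopologicalGroup H] [T2Space H] (f : G →* H),
    Continuous f → Function.Surjective f → IsOpenMap f

lemma IsTotallyMinimal.omp {G : Type u} [Group G] [TopologicalSpace G] [IsTopologicalGroup G]
    (hG : IsTotallyMinimal G) : OMP G := by
  intro H _ τH _ _ f hf hs
  have hN : IsClosed (f.ker : Set G) := by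
    have : (f.ker : Set G) = f ⁻¹' {1} := rfl
    rw [this]
    exact isClosed_singleton.preimage hf
  let e : (G ⧸ f.ker) →* H := QuotientGroup.kerLift f
  have he : ∀ g : G, e (g : G ⧸ f.ker) = f g := fun g => rfl
  have hec : Continuous e := (QuotientGroup.isQuotientMap_mk f.ker).continuous_iff.mpr hf
  have heq := hG f.ker hN (TopologicalSpace.induced e τH) (topologicalGroup_induced e)
    (@IsEmbedding.t2Space _ _ (TopologicalSpace.induced e τH) _ _ e
      (@IsEmbedding.mk _ _ (TopologicalSpace.induced e τH) _ e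
        (@IsInducing.mk _ _ (TopologicalSpace.induced e τH) _ e rfl)
        (QuotientGroup.kerLift_injective f)))
    (continuous_iff_le_induced.mp hec)
  have hind : IsInducing e := ⟨heq.symm⟩
  have hes : Function.Surjective e := fun y => by
    obtain ⟨g, rfl⟩ := hs y
    exact ⟨g, rfl⟩
  have ho : IsOpenMap e := hind.isOpenMap (by rw [hes.range_eq]; exact isOpen_univ)
  exact ho.comp QuotientGroup.isOpenMap_coe

lemma OMP.quotient {G : Type u} [Group G] [TopologicalSpace G] [IsTopologicalGroup G]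
    (hG : OMP G) (N : Subgroup G) [N.Normal] : OMP (G ⧸ N) := by
  intro H _ _ _ _ f hf hs
  have h := hG H (f.comp (QuotientGroup.mk' N)) (hf.comp QuotientGroup.continuous_mk)
    (hs.comp QuotientGroup.mk_surjective)
  exact IsOpenMap.of_comp (f := (QuotientGroup.mk : G → G ⧸ N)) QuotientGroup.continuous_mk
    QuotientGroup.mk_surjective h

/-- A copy of `G` carrying the topology of a group filter basis. -/
def Syn {G : Type u} [Group G] (_ : GroupFilterBasis G) : Type u := G

instance {G : Type u} [Group G] (B : GroupFilterBasis G) : Group (Syn B) := ‹Group G›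

instance {G : Type u} [Group G] (B : GroupFilterBasis G) : TopologicalSpace (Syn B) := B.topology

instance {G : Type u} [Group G] (B : GroupFilterBasis G) : IsTopologicalGroup (Syn B) :=
  B.isTopologicalGroup

lemma OMP.coarse {G : Type u} [Group G] [TopologicalSpace G] [IsTopologicalGroup G]
    (hG : OMP G) (hP : IsPrecompactGroup G) (𝒱 : Filter G) (h1 : ∀ V ∈ 𝒱, (1 : G) ∈ V)
    (hmul : ∀ V ∈ 𝒱, ∃ V' ∈ 𝒱, ∀ a ∈ V', ∀ b ∈ V', a * b ∈ V)
    (hinv : ∀ V ∈ 𝒱, ∃ V' ∈ 𝒱, ∀ a ∈ V', a⁻¹ ∈ V)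
    (hconj : ∀ g : G, ∀ V ∈ 𝒱, ∃ V' ∈ 𝒱, ∀ a ∈ V', g * a * g⁻¹ ∈ V)
    (U : Set G) (hU : U ∈ 𝓝 (1 : G)) :
    ∃ V ∈ 𝒱, ∀ v ∈ V, ∃ u ∈ U, ∀ U' ∈ 𝓝 (1 : G), ∀ V' ∈ 𝒱, u⁻¹ * v ∈ U' * V' := by
  let B : GroupFilterBasis G :=
    { sets := {T | ∃ U ∈ 𝓝 (1 : G), ∃ V ∈ 𝒱, T = U * V}
      nonempty := ⟨_, univ, univ_mem, univ, univ_mem, rfl⟩
      inter_sets := by
        rintro _ _ ⟨U₁, hU₁, V₁, hV₁, rfl⟩ ⟨U₂, hU₂, V₂, hV₂, rfl⟩
        exact ⟨_, ⟨_, inter_mem hU₁ hU₂, _, inter_mem hV₁ hV₂, rfl⟩, subset_inter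
          (mul_subset_mul inter_subset_left inter_subset_left)
          (mul_subset_mul inter_subset_right inter_subset_right)⟩
      one' := by
        rintro _ ⟨U, hU, V, hV, rfl⟩
        exact ⟨1, mem_of_mem_nhds hU, 1, h1 V hV, one_mul 1⟩
      mul' := by
        rintro _ ⟨U, hU, V, hV, rfl⟩
        obtain ⟨W, hW, hWU⟩ := exists_nhds_one_split hU
        obtain ⟨W', hW', hWW⟩ := hP.sin hW
        obtain ⟨V', hV', hVV⟩ := hmul V hV
        refine ⟨_, ⟨_, inter_mem hW hW', _, hV', rfl⟩, ?_⟩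
        rintro _ ⟨_, ⟨u₁, hu₁, v₁, hv₁, rfl⟩, _, ⟨u₂, hu₂, v₂, hv₂, rfl⟩, rfl⟩
        refine ⟨u₁ * (v₁ * u₂ * v₁⁻¹), hWU _ hu₁.1 _ (hWW _ hu₂.2 _), v₁ * v₂,
          hVV _ hv₁ _ hv₂, ?_⟩
        simp [mul_assoc]
      inv' := by
        rintro _ ⟨U, hU, V, hV, rfl⟩
        obtain ⟨W, hW, hWU⟩ := hP.sin hU
        obtain ⟨V', hV', hVV⟩ := hinv V hV
        refine ⟨_, ⟨_, inv_mem_nhds_one G hW, _, hV', rfl⟩, ?_⟩
        rintro _ ⟨u, hu, v, hv, rfl⟩
        refine ⟨v⁻¹ * u⁻¹ * v⁻¹⁻¹, hWU _ hu _, v⁻¹, hVV _ hv, ?_⟩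
        simp [mul_assoc]
      conj' := by
        rintro g _ ⟨U, hU, V, hV, rfl⟩
        obtain ⟨W, hW, hWU⟩ := hP.sin hU
        obtain ⟨V', hV', hVV⟩ := hconj g V hV
        refine ⟨_, ⟨_, hW, _, hV', rfl⟩, ?_⟩
        rintro _ ⟨u, hu, v, hv, rfl⟩
        refine ⟨g * u * g⁻¹, hWU _ hu _, g * v * g⁻¹, hVV _ hv, ?_⟩
        simp [mul_assoc] }
  have hbasis : (𝓝 (1 : Syn B)).HasBasis (fun T => T ∈ B) id := B.nhds_one_hasBasis
  let ι : G →* Syn B := MonoidHom.id G
  have hι : Continuous ι := by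
    refine continuous_of_continuousAt_one ι ?_
    rw [ContinuousAt, map_one, hbasis.tendsto_right_iff]
    rintro _ ⟨U, hU, V, hV, rfl⟩
    filter_upwards [hU] with u hu
    exact ⟨u, hu, 1, h1 V hV, mul_one u⟩
  let f : G →* SeparationQuotient (Syn B) := SeparationQuotient.mkMonoidHom.comp ι
  have hf : IsOpenMap f := hG _ f (SeparationQuotient.continuous_mk.comp hι)
    (SeparationQuotient.surjective_mk (X := Syn B))
  have h2 : f '' U ∈ 𝓝 (f 1) := hf.image_mem_nhds hU
  have h3 : SeparationQuotient.mk ⁻¹' (f '' U) ∈ 𝓝 (1 : Syn B) :=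
    SeparationQuotient.continuous_mk.continuousAt.preimage_mem_nhds h2
  obtain ⟨_, ⟨U₀, hU₀, V₀, hV₀, rfl⟩, hsub⟩ := hbasis.mem_iff.mp h3
  refine ⟨V₀, hV₀, fun v hv => ?_⟩
  obtain ⟨u, hu, huv⟩ := hsub ⟨1, mem_of_mem_nhds hU₀, v, hv, one_mul v⟩
  refine ⟨u, hu, fun U' hU' V' hV' => ?_⟩
  have h4 : f (u⁻¹ * v) = f 1 := by
    have : f v = f u := huv.symm
    rw [map_mul, map_inv, this, inv_mul_cancel, map_one]
  have h5 : Inseparable (ι (u⁻¹ * v)) (1 : Syn B) := SeparationQuotient.mk_eq_mk.mp h4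
  have h6 : (U' * V' : Set G) ∈ 𝓝 (1 : Syn B) := hbasis.mem_of_mem ⟨U', hU', V', hV', rfl⟩
  exact mem_of_mem_nhds (x := ι (u⁻¹ * v)) (h5.nhds_eq.le h6)

section subgroup

variable {G : Type u} [Group G] [TopologicalSpace G] [IsTopologicalGroup G]

lemma OMP.weak (hG : OMP G) (hP : IsPrecompactGroup G) (A : Subgroup G) [A.Normal]
    (hA : IsClosed (A : Set G)) (M : Subgroup (A →* Circle)) (hM : ∀ ψ ∈ M, Continuous ψ)
    (hinv : ∀ g : G, ∀ ψ ∈ M, ψ.comp (MulAut.conjNormal g : A ≃* A).toMonoidHom ∈ M)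
    (U : Set G) (hU : U ∈ 𝓝 (1 : G)) :
    ∃ V ∈ comap (fun (a : A) (ψ : M) => ψ.1 a) (𝓝 1), ∀ v ∈ V, ∃ u : A, (u : G) ∈ U ∧
      ∀ ψ ∈ M, ψ (u⁻¹ * v) = 1 := by
  set W : Filter A := comap (fun (a : A) (ψ : M) => ψ.1 a) (𝓝 1) with hW
  have hWt : ∀ ψ : M, Tendsto ψ.1 W (𝓝 1) := fun ψ =>
    tendsto_pi_nhds.mp (tendsto_comap (f := fun (a : A) (ψ : M) => ψ.1 a) (x := 𝓝 1)) ψ
  have hWi : ∀ {β : Type u} (F : β → A) (l : Filter β),
      (∀ ψ : M, Tendsto (fun b => ψ.1 (F b)) l (𝓝 1)) → Tendsto F l W := by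
    intro β F l h
    rw [hW, tendsto_comap_iff, tendsto_pi_nhds]
    exact h
  obtain ⟨V, hV, hVU⟩ := hG.coarse hP (map Subtype.val W) (by
      intro V hV
      have h : Tendsto (fun _ : A => (1 : A)) (pure 1) W :=
        hWi _ _ fun ψ => by simp
      exact h hV)
    (by
      intro V hV
      have h : Tendsto (fun p : A × A => p.1 * p.2) (W ×ˢ W) W := hWi _ _ fun ψ => by
        simp only [map_mul]
        simpa using ((hWt ψ).comp tendsto_fst).mul ((hWt ψ).comp tendsto_snd)
      obtain ⟨T, hT, hTV⟩ := mem_prod_self_iff.mp (h hV)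
      refine ⟨_, image_mem_map hT, ?_⟩
      rintro _ ⟨a, ha, rfl⟩ _ ⟨b, hb, rfl⟩
      exact hTV (mk_mem_prod ha hb))
    (by
      intro V hV
      have h : Tendsto (fun a : A => a⁻¹) W W := hWi _ _ fun ψ => by
        simp only [map_inv]
        simpa using (hWt ψ).inv
      refine ⟨_, image_mem_map (h hV), ?_⟩
      rintro _ ⟨a, ha, rfl⟩
      exact ha)
    (by
      intro g V hV
      have h : Tendsto (fun a : A => MulAut.conjNormal g a) W W := hWi _ _ fun ψ =>
        hWt ⟨_, hinv g ψ.1 ψ.2⟩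
      refine ⟨_, image_mem_map (h hV), ?_⟩
      rintro _ ⟨a, ha, rfl⟩
      exact ha) U hU
  refine ⟨_, hV, fun v hv => ?_⟩
  obtain ⟨u, hu, hall⟩ := hVU v hv
  have hx : u⁻¹ * v ∈ A := by
    by_contra hx
    have hc : Continuous fun g : G => g⁻¹ * (u⁻¹ * v) := by fun_prop
    have h1 : (fun g : G => g⁻¹ * (u⁻¹ * v)) ⁻¹' (A : Set G)ᶜ ∈ 𝓝 (1 : G) :=
      hc.continuousAt.preimage_mem_nhds (hA.isOpen_compl.mem_nhds (by simpa using hx))
    obtain ⟨u', hu', _, ⟨a, -, rfl⟩, h2⟩ := hall _ h1 _ (image_mem_map univ_mem)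
    apply hu'
    have h3 : u' * (a : G) = u⁻¹ * v := h2
    show u'⁻¹ * (u⁻¹ * v) ∈ A
    rw [← h3]
    simp
  have huA : u ∈ A := by
    have := A.mul_mem v.2 (A.inv_mem hx)
    simpa [mul_assoc] using this
  refine ⟨⟨u, huA⟩, hu, fun ψ hψ => ?_⟩
  by_contra hne
  obtain ⟨O, hO, hOO⟩ := exists_nhds_one_split (M := Circle)
    (isOpen_compl_singleton.mem_nhds (Ne.symm hne))
  have h1 : ψ ⁻¹' O ∈ 𝓝 (1 : A) :=
    (hM ψ hψ).continuousAt.preimage_mem_nhds (by rwa [map_one])
  rw [nhds_subtype_eq_comap, mem_comap] at h1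
  obtain ⟨U', hU', hU'O⟩ := h1
  obtain ⟨u', hu', _, ⟨a, ha, rfl⟩, h2⟩ := hall _ hU' _ (image_mem_map (hWt ⟨ψ, hψ⟩ hO))
  have h3 : u' * (a : G) = u⁻¹ * v := h2
  have hu'A : u' ∈ A := by
    have := A.mul_mem hx (A.inv_mem a.2)
    rw [← h3] at this
    simpa using this
  have h4 : (⟨u', hu'A⟩ : A) * a = (⟨u, huA⟩ : A)⁻¹ * v := Subtype.ext h3
  refine hOO (ψ ⟨u', hu'A⟩) (hU'O hu') (ψ a) ha ?_
  rw [← map_mul, h4]
  rfl

/-- Invariant groups of continuous characters are annihilator closed. -/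
lemma OMP.mem_of_annihilates (hG : OMP G) (hP : IsPrecompactGroup G) (A : Subgroup G) [A.Normal]
    (hA : IsClosed (A : Set G)) (M : Subgroup (A →* Circle)) (hM : ∀ ψ ∈ M, Continuous ψ)
    (hinv : ∀ g : G, ∀ ψ ∈ M, ψ.comp (MulAut.conjNormal g : A ≃* A).toMonoidHom ∈ M)
    (χ : A →* Circle) (hχ : Continuous χ) (hann : ∀ a : A, (∀ ψ ∈ M, ψ a = 1) → χ a = 1) :
    χ ∈ M := by
  refine mem_of_tendsto_weak M χ fun O hO => ?_
  have h1 : χ ⁻¹' O ∈ 𝓝 (1 : A) := hχ.continuousAt.preimage_mem_nhds (by rwa [map_one])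
  rw [nhds_subtype_eq_comap, mem_comap] at h1
  obtain ⟨U, hU, hUO⟩ := h1
  obtain ⟨V, hV, hVU⟩ := hG.weak hP A hA M hM hinv U hU
  refine mem_map.mpr (mem_of_superset hV fun v hv => ?_)
  obtain ⟨u, hu, h2⟩ := hVU v hv
  have h3 := hann _ h2
  rw [map_mul, map_inv, inv_mul_eq_one] at h3
  show χ v ∈ O
  rw [← h3]
  exact hUO hu

lemma three_space (A : Subgroup G) [A.Normal] [(𝓝 (1 : A)).IsCountablyGenerated]
    [(𝓝 (1 : G ⧸ A)).IsCountablyGenerated] : (𝓝 (1 : G)).IsCountablyGenerated := by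
  obtain ⟨a, ha⟩ := (𝓝 (1 : A)).exists_antitone_basis
  obtain ⟨b, hb⟩ := (𝓝 (1 : G ⧸ A)).exists_antitone_basis
  have h1 : ∀ n, ∃ O ∈ 𝓝 (1 : G), ∀ x ∈ O, ∀ y ∈ O, ∀ h : x⁻¹ * y ∈ A, (⟨_, h⟩ : A) ∈ a n := by
    intro n
    have := ha.mem n
    rw [nhds_subtype_eq_comap, mem_comap] at this
    obtain ⟨O', hO', hsub⟩ := this
    obtain ⟨W, hW, hWi, hW3⟩ := exists_symm3 (G := G) hO'
    refine ⟨W, hW, fun x hx y hy h => hsub ?_⟩
    simpa using hW3 _ (hWi _ hx) _ hy 1 (mem_of_mem_nhds hW)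
  choose O hO hOa using h1
  have hP : ∀ k, (QuotientGroup.mk : G → G ⧸ A) ⁻¹' b k ∈ 𝓝 (1 : G) := fun k =>
    QuotientGroup.continuous_mk.continuousAt.preimage_mem_nhds (hb.mem k)
  have : 𝓝 (1 : G) = ⨅ p : ℕ × ℕ, 𝓟 (O p.1 ∩ (QuotientGroup.mk : G → G ⧸ A) ⁻¹' b p.2) := by
    refine le_antisymm (le_iInf fun p => le_principal_iff.mpr (inter_mem (hO _) (hP _))) ?_
    intro U hU
    obtain ⟨V, hV, hVU⟩ := exists_nhds_one_split hU
    have h2 : Subtype.val ⁻¹' V ∈ 𝓝 (1 : A) :=
      continuous_subtype_val.continuousAt.preimage_mem_nhds hV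
    obtain ⟨m, hm⟩ := ha.mem_iff.mp h2
    have h3 : (QuotientGroup.mk : G → G ⧸ A) '' (V ∩ O m) ∈ 𝓝 (1 : G ⧸ A) :=
      QuotientGroup.isOpenMap_coe.image_mem_nhds (inter_mem hV (hO m))
    obtain ⟨k, hk⟩ := hb.mem_iff.mp h3
    refine mem_iInf_of_mem (m, k) (mem_principal.mpr fun x hx => ?_)
    obtain ⟨w, hw, hwx⟩ := hk hx.2
    have h4 : w⁻¹ * x ∈ A := QuotientGroup.eq.mp hwx
    have h5 := hVU w hw.1 _ (hm (hOa m w hw.2 x hx.1 h4))
    simpa using h5
  rw [this]
  infer_instance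

end subgroup

lemma HasCountableTightness.subtype {X : Type*} [TopologicalSpace X]
    (hX : HasCountableTightness X) (p : Set X) : HasCountableTightness p := by
  intro T x hx
  rw [IsInducing.subtypeVal.closure_eq_preimage_closure_image] at hx
  obtain ⟨B, hB, hBc, hxB⟩ := hX _ _ hx
  refine ⟨Subtype.val ⁻¹' B, ?_, hBc.preimage Subtype.val_injective, ?_⟩
  · intro y hy
    obtain ⟨z, hz, hzy⟩ := hB hy
    rwa [← Subtype.val_injective hzy]
  · rw [IsInducing.subtypeVal.closure_eq_preimage_closure_image,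
      image_preimage_eq_of_subset (hB.trans (image_subset_range _ _))]
    exact hxB

lemma HasCountableTightness.of_isOpenMap {X Y : Type*} [TopologicalSpace X] [TopologicalSpace Y]
    (hX : HasCountableTightness X) (f : X → Y) (hf : Continuous f) (ho : IsOpenMap f)
    (hs : Function.Surjective f) : HasCountableTightness Y := by
  intro T y hy
  obtain ⟨x, rfl⟩ := hs y
  have hx : x ∈ closure (f ⁻¹' T) := ho.preimage_closure_subset_closure_preimage hy
  obtain ⟨B, hB, hBc, hxB⟩ := hX _ _ hx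
  exact ⟨f '' B, image_subset_iff.mpr hB, hBc.image f,
    image_closure_subset_closure_image hf ⟨x, hxB, rfl⟩⟩

end Pool.Agent.Lib.MP_a4feb0_gt
end

-- part Pool.Agent.Lib.MP_a4feb0_gt.Main
section

set_option autoImplicit false

open Filter Topology Set Pointwise
open scoped commutatorElement

namespace Pool.Agent.Lib.MP_a4feb0_gt

universe u

section

variable {G : Type u} [Group G] [TopologicalSpace G] [IsTopologicalGroup G]

/-- The group of continuous characters of a subgroup. -/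
def chars (A : Subgroup G) : Subgroup (A →* Circle) where
  carrier := {χ | Continuous χ}
  one_mem' := continuous_const
  mul_mem' := fun h h' => Continuous.mul h h'
  inv_mem' := fun h => Continuous.inv h

lemma continuous_conjNormal (A : Subgroup G) [A.Normal] (g : G) :
    Continuous (MulAut.conjNormal g : A ≃* A) := by
  refine Continuous.subtype_mk (f := fun a : A => g * (a : G) * g⁻¹) (by fun_prop) _

/-- Conjugation acting on characters. -/
noncomputable def actChars (A : Subgroup G) [A.Normal] (g : G) : chars A →* chars A :=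
  MonoidHom.mk' (fun χ => ⟨χ.1.comp (MulAut.conjNormal g⁻¹ : A ≃* A).toMonoidHom,
    Continuous.comp (g := χ.1) χ.2 (continuous_conjNormal A g⁻¹)⟩) (fun _ _ => rfl)

/-- The conjugation representation on characters. -/
noncomputable def repChars (A : Subgroup G) [A.Normal] : Representation ℤ G (Additive (chars A)) where
  toFun g := (MonoidHom.toAdditive (actChars A g)).toIntLinearMap
  map_one' := by
    refine LinearMap.ext fun χ => Subtype.ext (MonoidHom.ext fun a => ?_)
    show (Additive.toMul χ).1 (MulAut.conjNormal (1 : G)⁻¹ a) = (Additive.toMul χ).1 a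
    simp
  map_mul' g h := by
    refine LinearMap.ext fun χ => Subtype.ext (MonoidHom.ext fun a => ?_)
    show (Additive.toMul χ).1 (MulAut.conjNormal (g * h)⁻¹ a) =
      (Additive.toMul χ).1 (MulAut.conjNormal h⁻¹ (MulAut.conjNormal g⁻¹ a))
    rw [mul_inv_rev, map_mul]
    rfl

lemma repChars_apply (A : Subgroup G) [A.Normal] (g : G) (χ : Additive (chars A)) (a : A) :
    (Additive.toMul (repChars A g χ)).1 a = (Additive.toMul χ).1 (MulAut.conjNormal g⁻¹ a) := rfl

lemma mem_submodule_of_annihilates (hG : OMP G) (hP : IsPrecompactGroup G) (A : Subgroup G)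
    [A.Normal] (hA : IsClosed (A : Set G)) (N : Submodule ℤ (Additive (chars A)))
    (hN : ∀ g x, x ∈ N → repChars A g x ∈ N) (y : Additive (chars A))
    (hy : ∀ a : A, (∀ z ∈ N, (Additive.toMul z).1 a = 1) → (Additive.toMul y).1 a = 1) :
    y ∈ N := by
  let M : Subgroup (A →* Circle) :=
    { carrier := {ψ | ∃ z ∈ N, (Additive.toMul z).1 = ψ}
      one_mem' := ⟨0, N.zero_mem, rfl⟩
      mul_mem' := by
        rintro _ _ ⟨z, hz, rfl⟩ ⟨z', hz', rfl⟩
        exact ⟨z + z', N.add_mem hz hz', rfl⟩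
      inv_mem' := by
        rintro _ ⟨z, hz, rfl⟩
        exact ⟨-z, N.neg_mem hz, rfl⟩ }
  obtain ⟨z, hz, hzy⟩ := hG.mem_of_annihilates hP A hA M
    (by rintro _ ⟨z, -, rfl⟩; exact (Additive.toMul z).2)
    (by
      rintro g _ ⟨z, hz, rfl⟩
      refine ⟨_, hN g⁻¹ z hz, MonoidHom.ext fun a => ?_⟩
      rw [repChars_apply, inv_inv]
      rfl)
    (Additive.toMul y).1 (Additive.toMul y).2 (fun a ha => hy a fun z hz => ha _ ⟨z, hz, rfl⟩)
  have : z = y := Subtype.ext hzy
  rwa [← this]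

/-- Each continuous character of an abelian normal subgroup is fixed by an invariant
neighbourhood of the subgroup. -/
lemma exists_nhds_fix (hP : IsPrecompactGroup G) (A : Subgroup G) [A.Normal]
    (hcomm : ∀ a b : A, a * b = b * a) (χ : Additive (chars A)) :
    ∃ V ∈ 𝓝 (1 : G), ∀ v ∈ V, ∀ a ∈ A, ∀ g : G, repChars A (g * (v * a) * g⁻¹) χ = χ := by
  have hc : Continuous fun a : A => ‖(((Additive.toMul χ).1 a : Circle) : ℂ) - 1‖ :=
    ((continuous_subtype_val.comp (Additive.toMul χ).2).sub continuous_const).norm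
  have h1 : {a : A | ‖(((Additive.toMul χ).1 a : Circle) : ℂ) - 1‖ < 1} ∈ 𝓝 (1 : A) :=
    (isOpen_lt hc continuous_const).mem_nhds (by simp)
  rw [nhds_subtype_eq_comap, mem_comap] at h1
  obtain ⟨U, hU, hUχ⟩ := h1
  obtain ⟨W, hW, hWi, hW3⟩ := exists_symm3 (G := G) hU
  obtain ⟨W', hW', hWW⟩ := hP.sin hW
  obtain ⟨V, hV, hVW⟩ := hP.sin (inter_mem hW hW')
  have hfixA : ∀ a ∈ A, repChars A a χ = χ := by
    intro a ha
    refine Subtype.ext (MonoidHom.ext fun b => ?_)
    refine (repChars_apply A a χ b).trans (congrArg _ (Subtype.ext ?_))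
    have := congrArg Subtype.val (hcomm ⟨a, ha⟩ b)
    simp only [Subgroup.coe_mul] at this
    simp [mul_assoc, ← this]
  have hfixW : ∀ w ∈ W ∩ W', repChars A w χ = χ := by
    intro w hw
    have h2 := char_eq_one_of_small
      ((Additive.toMul (repChars A w χ)).1 * ((Additive.toMul χ).1)⁻¹) (fun b => by
        rw [MonoidHom.mul_apply, MonoidHom.inv_apply, repChars_apply, ← map_inv, ← map_mul]
        refine hUχ ?_
        have := hW3 _ (hWi _ hw.1) _ (hWW _ hw.2 (b : G)) 1 (mem_of_mem_nhds hW)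
        simpa [mul_assoc] using this)
    exact Subtype.ext (mul_inv_eq_one.mp h2)
  refine ⟨V, hV, fun v hv a ha g => ?_⟩
  have h3 : g * (v * a) * g⁻¹ = (g * v * g⁻¹) * (g * a * g⁻¹) := by simp [mul_assoc]
  rw [h3, map_mul, Module.End.mul_apply, hfixA _ (Subgroup.Normal.conj_mem ‹_› a ha g),
    hfixW _ (hVW v hv g)]

lemma countable_chars (hG : OMP G) (hP : IsPrecompactGroup G) (hT : HasCountableTightness G)
    (A : Subgroup G) [A.Normal] (hA : IsClosed (A : Set G)) (hcomm : ∀ a b : A, a * b = b * a)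
    [(𝓝 (1 : G ⧸ A)).IsCountablyGenerated] : Countable (chars A) := by
  by_contra hunc
  obtain ⟨b, hb⟩ := (𝓝 (1 : G ⧸ A)).exists_antitone_basis
  let H : ℕ → Subgroup G := fun n =>
    Subgroup.normalClosure ((QuotientGroup.mk : G → G ⧸ A) ⁻¹' b n)
  have hex : ∃ n, ¬ {x : Additive (chars A) | ∀ h ∈ H n, repChars A h x = x}.Countable := by
    by_contra hall
    push Not at hall
    apply hunc
    show Countable (Additive (chars A))
    rw [← countable_univ_iff]
    refine (countable_iUnion hall).mono fun χ _ => ?_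
    obtain ⟨V, hV, hVχ⟩ := exists_nhds_fix hP A hcomm χ
    obtain ⟨n, hn⟩ := hb.mem_iff.mp
      (show (QuotientGroup.mk : G → G ⧸ A) '' V ∈ 𝓝 (1 : G ⧸ A) from
        QuotientGroup.isOpenMap_coe.image_mem_nhds hV)
    refine mem_iUnion.mpr ⟨n, fun h hh => ?_⟩
    let St : Subgroup G :=
      { carrier := {h | repChars A h χ = χ}
        one_mem' := by show repChars A 1 χ = χ; rw [map_one]; rfl
        mul_mem' := by
          intro x y hx hy
          show repChars A (x * y) χ = χ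
          rw [map_mul, Module.End.mul_apply, hy, hx]
        inv_mem' := by
          intro x hx
          show repChars A x⁻¹ χ = χ
          conv_lhs => rw [← (show repChars A x χ = χ from hx)]
          rw [← Module.End.mul_apply, ← map_mul, inv_mul_cancel, map_one]
          rfl }
    have hle : H n ≤ St := by
      refine (Subgroup.closure_le St).mpr fun x hx => ?_
      obtain ⟨y, hy, hxy⟩ := Group.mem_conjugatesOfSet_iff.mp hx
      obtain ⟨g, rfl⟩ := isConj_iff.mp hxy
      obtain ⟨v, hv, hvy⟩ := hn hy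
      have h1 : v⁻¹ * y ∈ A := QuotientGroup.eq.mp hvy
      have := hVχ v hv _ h1 g
      rwa [mul_inv_cancel_left] at this
    exact hle hh
  obtain ⟨n, hn⟩ := hex
  have : Finite (G ⧸ H n) := hP.finite_quotient _ (mem_of_superset
    (QuotientGroup.continuous_mk.continuousAt.preimage_mem_nhds (hb.mem n))
    Subgroup.subset_normalClosure)
  obtain ⟨S, M, y₀, hanti, hS, hM, hinter, hsup, hy₀⟩ :=
    exists_invariant_family (repChars A) (H n) hn
  let Sig : Subgroup A :=
    { carrier := {a | ∃ C : Set (Additive (chars A)), C.Countable ∧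
        ∀ z ∈ S C, (Additive.toMul z).1 a = 1}
      one_mem' := ⟨∅, countable_empty, fun _ _ => map_one _⟩
      mul_mem' := by
        rintro a a' ⟨C, hC, h⟩ ⟨C', hC', h'⟩
        refine ⟨C ∪ C', hC.union hC', fun z hz => ?_⟩
        rw [map_mul, h z (hanti subset_union_left hz), h' z (hanti subset_union_right hz),
          mul_one]
      inv_mem' := by
        rintro a ⟨C, hC, h⟩
        exact ⟨C, hC, fun z hz => by rw [map_inv, h z hz, inv_one]⟩ }
  have hSigc : IsClosed (Sig : Set A) := by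
    refine isClosed_of_closure_subset fun a ha => ?_
    obtain ⟨B, hB, hBc, haB⟩ := hT.subtype (A : Set G) _ a ha
    have hB' : ∀ x ∈ B, ∃ C : Set (Additive (chars A)), C.Countable ∧
        ∀ z ∈ S C, (Additive.toMul z).1 x = 1 := fun x hx => hB hx
    choose! C hC hCz using hB'
    refine ⟨⋃ x ∈ B, C x, hBc.biUnion fun x hx => hC x hx, fun z hz => ?_⟩
    have hcl : IsClosed {a : A | (Additive.toMul z).1 a = 1} :=
      isClosed_eq (Additive.toMul z).2 continuous_const
    refine closure_minimal (fun x hx => ?_) hcl haB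
    exact hCz x hx z (hanti (subset_biUnion_of_mem (u := C) hx) hz)
  have hall : ∀ a : A, a ∈ Sig := by
    intro a
    by_contra ha
    obtain ⟨χ, hχc, hχS, hχa⟩ := exists_char_sep hcomm (hP.subgroup A) Sig hSigc a ha
    have h0 := hinter (Additive.ofMul ⟨χ, hχc⟩) fun C hC =>
      mem_submodule_of_annihilates hG hP A hA (S C) (hS C) _ fun x hx => hχS x ⟨C, hC, hx⟩
    have h1 : χ = 1 := congrArg (fun z : Additive (chars A) => (Additive.toMul z).1) h0
    exact hχa (by rw [h1]; rfl)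
  refine hy₀ (mem_submodule_of_annihilates hG hP A hA M hM y₀ fun a ha => ?_)
  obtain ⟨C, hC, hCa⟩ := hall a
  obtain ⟨m, hm, z, hz, hmz⟩ := Submodule.mem_sup.mp (hsup C hC)
  rw [← hmz]
  show (Additive.toMul m).1 a * (Additive.toMul z).1 a = 1
  rw [ha m hm, hCa z hz, mul_one]

lemma countablyGenerated_of_countable_chars [T2Space G] (hG : OMP G) (hP : IsPrecompactGroup G)
    (A : Subgroup G) [A.Normal] (hA : IsClosed (A : Set G)) (hcomm : ∀ a b : A, a * b = b * a)
    [Countable (chars A)] : (𝓝 (1 : A)).IsCountablyGenerated := by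
  have : 𝓝 (1 : A) = comap (fun (a : A) (ψ : chars A) => ψ.1 a) (𝓝 1) := by
    refine le_antisymm ?_ fun T hT => ?_
    · rw [← tendsto_iff_comap, tendsto_pi_nhds]
      intro ψ
      have := ψ.2.tendsto (1 : A)
      rwa [map_one] at this
    · rw [nhds_subtype_eq_comap, mem_comap] at hT
      obtain ⟨U, hU, hUT⟩ := hT
      obtain ⟨V, hV, hVU⟩ := hG.weak hP A hA (chars A) (fun _ h => h)
        (fun g ψ hψ => Continuous.comp (g := ψ) hψ (continuous_conjNormal A g)) U hU
      refine mem_of_superset hV fun v hv => hUT ?_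
      obtain ⟨u, hu, h⟩ := hVU v hv
      have h1 : u⁻¹ * v ∈ (⊥ : Subgroup A) := by
        by_contra hne
        obtain ⟨χ, hχc, -, hχa⟩ := exists_char_sep hcomm (hP.subgroup A) ⊥
          (by rw [Subgroup.coe_bot]; exact isClosed_singleton) _ hne
        exact hχa (h χ hχc)
      rw [Subgroup.mem_bot, inv_mul_eq_one] at h1
      rw [← h1]
      exact hu
  rw [this]
  infer_instance

end

theorem countablyGenerated_of_derivedSeries (n : ℕ) :
    ∀ (G : Type u) [Group G] [TopologicalSpace G] [IsTopologicalGroup G] [T2Space G],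
      OMP G → IsPrecompactGroup G → HasCountableTightness G → derivedSeries G n = ⊥ →
      (𝓝 (1 : G)).IsCountablyGenerated := by
  induction n with
  | zero =>
    intro G _ _ _ _ _ _ _ h
    have : Subsingleton G := ⟨fun a b => by
      have ha : a ∈ derivedSeries G 0 := Subgroup.mem_top a
      have hb : b ∈ derivedSeries G 0 := Subgroup.mem_top b
      rw [h, Subgroup.mem_bot] at ha hb
      rw [ha, hb]⟩
    infer_instance
  | succ n ih =>
    intro G _ _ _ _ hG hP hT h
    have := derivedSeries_normal G n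
    let A : Subgroup G := (derivedSeries G n).topologicalClosure
    have : A.Normal := Subgroup.is_normal_topologicalClosure _
    have hA : IsClosed (A : Set G) := Subgroup.isClosed_topologicalClosure _
    have hD : ∀ a b : derivedSeries G n, a * b = b * a := by
      intro a b
      have h1 : ⁅(a : G), (b : G)⁆ ∈ derivedSeries G (n + 1) :=
        Subgroup.commutator_mem_commutator a.2 b.2
      rw [h, Subgroup.mem_bot, commutatorElement_eq_one_iff_mul_comm] at h1
      exact Subtype.ext h1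
    have hcomm : ∀ a b : A, a * b = b * a :=
      ((derivedSeries G n).commGroupTopologicalClosure hD).mul_comm
    have hq : derivedSeries (G ⧸ A) n = ⊥ := by
      rw [← map_derivedSeries_eq (f := QuotientGroup.mk' A) QuotientGroup.mk_surjective,
        Subgroup.map_eq_bot_iff, QuotientGroup.ker_mk']
      exact Subgroup.le_topologicalClosure _
    have := ih (G ⧸ A) (hG.quotient A)
      (hP.of_surjective (QuotientGroup.mk' A) QuotientGroup.continuous_mk
        QuotientGroup.mk_surjective)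
      (hT.of_isOpenMap _ QuotientGroup.continuous_mk QuotientGroup.isOpenMap_coe
        QuotientGroup.mk_surjective) hq
    have := countable_chars hG hP hT A hA hcomm
    have := countablyGenerated_of_countable_chars hG hP A hA hcomm
    exact three_space A

theorem metrizable_of_totallyMinimal (G : Type u) [Group G] [TopologicalSpace G]
    [IsTopologicalGroup G] [T2Space G] (hmin : IsTotallyMinimal G) (hP : IsPrecompactGroup G)
    (hsolv : Group.IsSolvable G) (hT : HasCountableTightness G) :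
    TopologicalSpace.MetrizableSpace G := by
  obtain ⟨n, hn⟩ := hsolv.solvable
  have := countablyGenerated_of_derivedSeries n G hmin.omp hP hT hn
  let U : UniformSpace G := IsTopologicalGroup.rightUniformSpace G
  have : (uniformity G).IsCountablyGenerated := by
    rw [uniformity_eq_comap_nhds_one']
    infer_instance
  exact UniformSpace.metrizableSpace

end Pool.Agent.Lib.MP_a4feb0_gt
end
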