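import Mathlib

/-! The Pruefer group `ℚ_2 / ℤ_2` as a discrete module over `ℤ_2`. -/

set_option autoImplicit false

namespace Pool.Agent.Lib.MP_a4feb0_gt.Ctr

open Filter Topology

/-- `ℤ_2` inside `ℚ_2` -/
noncomputable def Lam : Submodule ℤ_[2] ℚ_[2] := LinearMap.range (Algebra.linearMap ℤ_[2] ℚ_[2])

theorem mem_Lam (x : ℚ_[2]) : x ∈ Lam ↔ ‖x‖ ≤ 1 := by
  constructor
  · rintro ⟨z, rfl⟩
    exact z.2
  · intro h
    exact ⟨⟨x, h⟩, rfl⟩

/-- the Pruefer group -/
def P : Type := ℚ_[2] ⧸ Lam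

noncomputable instance : AddCommGroup P := inferInstanceAs (AddCommGroup (ℚ_[2] ⧸ Lam))
noncomputable instance : Module ℤ_[2] P := inferInstanceAs (Module ℤ_[2] (ℚ_[2] ⧸ Lam))
noncomputable instance : TopologicalSpace P := inferInstanceAs (TopologicalSpace (ℚ_[2] ⧸ Lam))
instance : ContinuousSMul ℤ_[2] ℚ_[2] :=
  ⟨(continuous_subtype_val.comp continuous_fst).mul continuous_snd⟩
instance : ContinuousSMul ℤ_[2] P := inferInstanceAs (ContinuousSMul ℤ_[2] (ℚ_[2] ⧸ Lam))

/-- the class of a `2`-adic number -/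
noncomputable def cl : ℚ_[2] →ₗ[ℤ_[2]] P := Lam.mkQ

theorem cl_surj : Function.Surjective cl := Lam.mkQ_surjective

theorem cl_eq_zero (x : ℚ_[2]) : cl x = 0 ↔ ‖x‖ ≤ 1 :=
  (Submodule.Quotient.mk_eq_zero Lam).trans (mem_Lam x)

theorem cl_cont : Continuous cl := continuous_quot_mk

instance : DiscreteTopology P := by
  have h : IsOpen ((Lam.toAddSubgroup : AddSubgroup ℚ_[2]) : Set ℚ_[2]) := by
    have : ((Lam.toAddSubgroup : AddSubgroup ℚ_[2]) : Set ℚ_[2]) = Metric.closedBall 0 1 := by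
      ext x
      simp [mem_Lam]
    rw [this]
    exact IsUltrametricDist.isOpen_closedBall _ one_ne_zero
  exact QuotientAddGroup.discreteTopology h

theorem norm_two : ‖(2 : ℚ_[2])‖ = 2⁻¹ := by
  have := Padic.norm_p (p := 2)
  simpa using this

theorem smul_cl (r : ℤ_[2]) (x : ℚ_[2]) : r • cl x = cl ((r : ℚ_[2]) * x) := by
  rw [← map_smul]
  rfl

theorem two_pow_smul_cl (n : ℕ) (x : ℚ_[2]) :
    (2 : ℤ_[2]) ^ n • cl x = 0 ↔ ‖x‖ ≤ 2 ^ n := by
  rw [smul_cl, cl_eq_zero, norm_mul]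
  have h : ((2 ^ n : ℤ_[2]) : ℚ_[2]) = 2 ^ n := by
    push_cast
    rfl
  rw [h, norm_pow, norm_two, inv_pow, inv_mul_le_iff₀ (by positivity), mul_one]

theorem torsion (y : P) : ∃ n : ℕ, (2 : ℤ_[2]) ^ n • y = 0 := by
  obtain ⟨x, rfl⟩ := cl_surj y
  obtain ⟨n, hn⟩ := pow_unbounded_of_one_lt ‖x‖ (one_lt_two (α := ℝ))
  exact ⟨n, (two_pow_smul_cl n x).2 hn.le⟩

theorem finite_tors (n : ℕ) : {y : P | (2 : ℤ_[2]) ^ n • y = 0}.Finite := by
  have h : IsCompact (cl '' Metric.closedBall (0 : ℚ_[2]) (2 ^ n)) :=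
    (isCompact_closedBall _ _).image cl_cont
  refine h.finite_of_discrete.subset fun y hy => ?_
  obtain ⟨x, rfl⟩ := cl_surj y
  exact ⟨x, by simpa using (two_pow_smul_cl n x).1 hy, rfl⟩

theorem divisible {r : ℤ_[2]} (hr : r ≠ 0) (y : P) : ∃ z : P, r • z = y := by
  obtain ⟨x, rfl⟩ := cl_surj y
  have h : (r : ℚ_[2]) ≠ 0 := PadicInt.coe_ne_zero.2 hr
  exact ⟨cl (x / r), by rw [smul_cl, mul_div_cancel₀ _ h]⟩

/-- the element of order two -/
noncomputable def hf : P := cl 2⁻¹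

theorem hf_ne : hf ≠ 0 := by
  intro h
  have := (cl_eq_zero _).1 h
  rw [norm_inv, norm_two] at this
  norm_num at this

theorem two_hf : (2 : ℤ_[2]) • hf = 0 := by
  have := (two_pow_smul_cl 1 2⁻¹).2 (by rw [norm_inv, norm_two]; norm_num)
  rwa [pow_one] at this

theorem hf_add : hf + hf = 0 := by rw [← two_smul ℤ_[2], two_hf]

theorem unit_hf (u : ℤ_[2]ˣ) : (u : ℤ_[2]) • hf = hf := by
  have h1 : PadicInt.toZMod (u : ℤ_[2]) = 1 := by
    have h2 : IsUnit (PadicInt.toZMod (u : ℤ_[2])) := u.isUnit.map _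
    revert h2
    generalize PadicInt.toZMod (u : ℤ_[2]) = z
    revert z
    decide
  have h3 : (u : ℤ_[2]) - 1 ∈ RingHom.ker (PadicInt.toZMod (p := 2)) := by
    rw [RingHom.mem_ker, map_sub, h1, map_one, sub_self]
  rw [PadicInt.ker_toZMod, PadicInt.maximalIdeal_eq_span_p, Ideal.mem_span_singleton'] at h3
  obtain ⟨c, hc⟩ := h3
  have h4 : (u : ℤ_[2]) = 1 + c * 2 := by
    rw [← sub_eq_iff_eq_add', ← hc]
    rfl
  rw [h4, add_smul, one_smul, mul_smul, two_hf, smul_zero, add_zero]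

/-- units are separated by their action -/
theorem eq_of_smul_eq {r r' : ℤ_[2]} (h : ∀ y : P, r • y = r' • y) : r = r' := by
  by_contra hne
  obtain ⟨z, hz⟩ := divisible (sub_ne_zero.2 hne) hf
  rw [sub_smul, h, sub_self] at hz
  exact hf_ne hz.symm

theorem exists_anti : ∃ φ : P → ZMod 3, φ ≠ 0 ∧ ∀ x, φ (x + hf) = -φ x := by
  classical
  let : LinearOrder P := linearOrderOfSTO WellOrderingRel
  refine ⟨fun x => if x < x + hf then 1 else -1, fun h => ?_, fun x => ?_⟩
  · have := congrFun h 0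
    simp only [Pi.zero_apply] at this
    split_ifs at this
    · exact absurd this (by decide)
    · exact absurd this (by decide)
  · have h1 : x + hf + hf = x := by rw [add_assoc, hf_add, add_zero]
    have h2 : x ≠ x + hf := fun h => hf_ne (by simpa using h)
    simp only [h1]
    by_cases h : x < x + hf
    · rw [if_pos h, if_neg (not_lt.2 h.le)]
    · rw [if_neg h, if_pos (lt_of_le_of_ne (not_lt.1 h) h2.symm), neg_neg]

theorem not_countable : ¬ (Set.univ : Set ℤ_[2]).Countable := by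
  intro h
  have : Countable ℤ_[2] := Set.countable_univ_iff.1 h
  have hd : Dense (⋂ x : ℤ_[2], ({x}ᶜ : Set ℤ_[2])) := by
    refine dense_iInter_of_isOpen (fun x => isOpen_compl_singleton) fun x => ?_
    rw [dense_compl_singleton_iff_not_open]
    intro ho
    have h1 : Tendsto (fun n : ℕ => x + (2 : ℤ_[2]) ^ n) atTop (𝓝 (x + 0)) := by
      refine tendsto_const_nhds.add (tendsto_pow_atTop_nhds_zero_of_norm_lt_one ?_)
      have := PadicInt.norm_p (p := 2)
      rw [show ((2 : ℕ) : ℤ_[2]) = 2 from rfl] at this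
      rw [this]
      norm_num
    rw [add_zero] at h1
    obtain ⟨n, hn⟩ := (h1.eventually (ho.mem_nhds rfl)).exists
    have h3 : x + (2 : ℤ_[2]) ^ n = x := hn
    have h2 : (2 : ℤ_[2]) ^ n = 0 := add_eq_left.1 h3
    exact pow_ne_zero n two_ne_zero h2
  obtain ⟨x, hx⟩ := hd.nonempty
  exact Set.mem_iInter.1 hx x rfl

end Pool.Agent.Lib.MP_a4feb0_gt.Ctr

/-! The group `G = S ⋊ (P² ⋊ ℤ_2ˣ)`, where `S` consists of the countably supported families,
indexed by `s ∈ ℤ_2`, of antiperiodic functions `P → ℤ/3`, and `(x, y) ∈ P²` translates the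
coordinate `s` by `x + s y`. -/

namespace Pool.Agent.Lib.MP_a4feb0_gt.Ctr

open Filter Topology

/-- the projection attached to the index `s` -/
noncomputable def pr (s : ℤ_[2]) : (P × P) →ₗ[ℤ_[2]] P :=
  LinearMap.fst ℤ_[2] P P + s • LinearMap.snd ℤ_[2] P P

theorem pr_apply (s : ℤ_[2]) (b : P × P) : pr s b = b.1 + s • b.2 := rfl

theorem pr_unit (s : ℤ_[2]) (k : ℤ_[2]ˣ) (b : P × P) : pr s (k • b) = k • pr s b := by
  rw [Units.smul_def, Units.smul_def, map_smul]

theorem pr_cont (s : ℤ_[2]) : Continuous (pr s) := continuous_of_discreteTopology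

theorem unit_hf' (u : ℤ_[2]ˣ) : u • hf = hf := unit_hf u

@[ext] structure G : Type where
  a : ℤ_[2] → P → ZMod 3
  b : P × P
  k : ℤ_[2]ˣ
  anti : ∀ s x, a s (x + hf) = -a s x
  cnt : {s | a s ≠ 0}.Countable

noncomputable instance : Mul G where
  mul g g' :=
    { a := fun s x => g'.a s x + g.a s (g'.k • x + pr s g'.b)
      b := g.b + g.k • g'.b
      k := g.k * g'.k
      anti := fun s x => by
        rw [smul_add, unit_hf', add_right_comm, g.anti, g'.anti, neg_add]
      cnt := (g.cnt.union g'.cnt).mono fun s hs => by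
        by_contra h
        simp only [Set.mem_union, Set.mem_ofPred_eq, not_or, not_not] at h
        exact hs (by funext x; simp [h.1, h.2]) }

noncomputable instance : One G where
  one :=
    { a := 0
      b := 0
      k := 1
      anti := fun s x => by simp
      cnt := by simp }

noncomputable instance : Inv G where
  inv g :=
    { a := fun s x => -g.a s (g.k⁻¹ • (x - pr s g.b))
      b := -(g.k⁻¹ • g.b)
      k := g.k⁻¹
      anti := fun s x => by
        rw [add_sub_right_comm, smul_add, unit_hf', g.anti]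
      cnt := g.cnt.mono fun s hs => by
        by_contra h
        simp only [Set.mem_ofPred_eq, not_not] at h
        exact hs (by funext x; simp [h]) }

@[simp] theorem mul_a (g g' : G) (s : ℤ_[2]) (x : P) :
    (g * g').a s x = g'.a s x + g.a s (g'.k • x + pr s g'.b) := rfl
@[simp] theorem mul_b (g g' : G) : (g * g').b = g.b + g.k • g'.b := rfl
@[simp] theorem mul_k (g g' : G) : (g * g').k = g.k * g'.k := rfl
@[simp] theorem one_a : (1 : G).a = 0 := rfl
@[simp] theorem one_b : (1 : G).b = 0 := rfl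
@[simp] theorem one_k : (1 : G).k = 1 := rfl
@[simp] theorem inv_a (g : G) (s : ℤ_[2]) (x : P) :
    g⁻¹.a s x = -g.a s (g.k⁻¹ • (x - pr s g.b)) := rfl
@[simp] theorem inv_b (g : G) : g⁻¹.b = -(g.k⁻¹ • g.b) := rfl
@[simp] theorem inv_k (g : G) : g⁻¹.k = g.k⁻¹ := rfl

theorem G.ext' {g g' : G} (ha : ∀ s x, g.a s x = g'.a s x) (hb : g.b = g'.b) (hk : g.k = g'.k) :
    g = g' :=
  G.ext (funext fun s => funext (ha s)) hb hk

noncomputable instance : Group G :=
  Group.ofLeftAxioms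
    (fun g g' g'' => G.ext'
      (fun s x => by
        simp only [mul_a, mul_b, mul_k, map_add, pr_unit, smul_add, mul_smul, add_assoc]
        rw [add_comm (pr s g'.b)])
      (by simp only [mul_b, mul_k, smul_add, mul_smul, add_assoc])
      (by simp only [mul_k, mul_assoc]))
    (fun g => G.ext' (fun s x => by simp) (by simp) (by simp))
    (fun g => G.ext' (fun s x => by simp) (by simp) (by simp))

/-- coordinates -/
def emb (g : G) : (ℤ_[2] → P → ZMod 3) × (P × P) × ℤ_[2]ˣ := (g.a, g.b, g.k)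

theorem emb_inj : Function.Injective emb := fun g g' h => by
  simp only [emb, Prod.mk.injEq] at h
  exact G.ext h.1 h.2.1 h.2.2

noncomputable instance : TopologicalSpace G := TopologicalSpace.induced emb inferInstance

theorem emb_embedding : IsEmbedding emb := ⟨⟨rfl⟩, emb_inj⟩

instance : T2Space G := emb_embedding.t2Space

theorem cont_a : Continuous G.a := continuous_fst.comp emb_embedding.continuous
theorem cont_b : Continuous G.b :=
  continuous_fst.comp (continuous_snd.comp emb_embedding.continuous)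
theorem cont_k : Continuous G.k :=
  continuous_snd.comp (continuous_snd.comp emb_embedding.continuous)

theorem cont_ev {X : Type*} [TopologicalSpace X] {g : X → G} {y : X → P} (hg : Continuous g)
    (hy : Continuous y) (s : ℤ_[2]) : Continuous fun x => (g x).a s (y x) := by
  have h : Continuous fun p : (P → ZMod 3) × P => p.1 p.2 :=
    continuous_prod_of_discrete_right.2 fun b => continuous_apply b
  exact h.comp (((continuous_apply s).comp (cont_a.comp hg)).prodMk hy)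

theorem cont_of {X : Type*} [TopologicalSpace X] {g : X → G}
    (ha : ∀ s y, Continuous fun x => (g x).a s y) (hb : Continuous fun x => (g x).b)
    (hk : Continuous fun x => (g x).k) : Continuous g :=
  emb_embedding.continuous_iff.2
    ((continuous_pi fun s => continuous_pi fun y => ha s y).prodMk (hb.prodMk hk))

instance : IsTopologicalGroup G where
  continuous_mul := by
    refine cont_of (fun s y => ?_) ?_ ?_
    · exact (cont_ev continuous_snd continuous_const s).add (cont_ev continuous_fst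
        (((cont_k.comp continuous_snd).smul continuous_const).add
          ((pr_cont s).comp (cont_b.comp continuous_snd))) s)
    · exact (cont_b.comp continuous_fst).add
        ((cont_k.comp continuous_fst).smul (cont_b.comp continuous_snd))
    · exact (cont_k.comp continuous_fst).mul (cont_k.comp continuous_snd)
  continuous_inv := by
    refine cont_of (fun s y => ?_) ?_ ?_
    · exact (cont_ev continuous_id
        (cont_k.inv.smul (continuous_const.sub ((pr_cont s).comp cont_b))) s).neg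
    · exact (cont_k.inv.smul cont_b).neg
    · exact cont_k.inv

/-- basic neighbourhoods -/
theorem nhds_basic {g₀ : G} {U : Set G} (hU : U ∈ 𝓝 g₀) :
    ∃ (T : Finset ℤ_[2]) (O : ℤ_[2] → Set (P → ZMod 3)) (W : Set ((P × P) × ℤ_[2]ˣ)),
      (∀ t, O t ∈ 𝓝 (g₀.a t)) ∧ W ∈ 𝓝 (g₀.b, g₀.k) ∧
      ∀ g : G, (∀ t ∈ T, g.a t ∈ O t) → (g.b, g.k) ∈ W → g ∈ U := by
  rw [emb_embedding.nhds_eq_comap, mem_comap] at hU
  obtain ⟨V, hV, hVU⟩ := hU
  rw [emb, nhds_prod_eq, mem_prod_iff] at hV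
  obtain ⟨V₁, hV₁, W, hW, hsub⟩ := hV
  rw [nhds_pi, mem_pi] at hV₁
  obtain ⟨I, hI, O, hO, hIO⟩ := hV₁
  refine ⟨hI.toFinset, O, W, hO, hW, fun g h1 h2 => hVU (hsub ⟨hIO fun t ht => ?_, h2⟩)⟩
  exact h1 t (hI.mem_toFinset.2 ht)

/-- translations -/
noncomputable def ofB (b : P × P) : G := ⟨0, b, 1, fun s x => by simp, by simp⟩

/-- dilations -/
noncomputable def ofK (k : ℤ_[2]ˣ) : G := ⟨0, 0, k, fun s x => by simp, by simp⟩

@[simp] theorem ofB_a (b : P × P) : (ofB b).a = 0 := rfl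
@[simp] theorem ofB_b (b : P × P) : (ofB b).b = b := rfl
@[simp] theorem ofB_k (b : P × P) : (ofB b).k = 1 := rfl
@[simp] theorem ofK_a (k : ℤ_[2]ˣ) : (ofK k).a = 0 := rfl
@[simp] theorem ofK_b (k : ℤ_[2]ˣ) : (ofK k).b = 0 := rfl
@[simp] theorem ofK_k (k : ℤ_[2]ˣ) : (ofK k).k = k := rfl

theorem ofB_add (b b' : P × P) : ofB (b + b') = ofB b * ofB b' :=
  G.ext' (fun s x => by simp) (by simp) (by simp)

theorem ofB_zero : ofB 0 = 1 := rfl

theorem ofK_one : ofK 1 = 1 := rfl

theorem ofB_nsmul (n : ℕ) (b : P × P) : ofB (n • b) = ofB b ^ n := by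
  induction n with
  | zero => rw [zero_smul, pow_zero, ofB_zero]
  | succ n ih => rw [succ_nsmul, ofB_add, ih, pow_succ]

theorem cont_ofK : Continuous ofK :=
  cont_of (fun _ _ => continuous_const) continuous_const continuous_id

open Classical in
/-- an element supported at one index -/
noncomputable def single (s : ℤ_[2]) (φ : P → ZMod 3) (hφ : ∀ x, φ (x + hf) = -φ x) : G where
  a := Pi.single s φ
  b := 0
  k := 1
  anti t x := by
    by_cases h : t = s
    · subst h
      simp [hφ]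
    · simp [h]
  cnt := (Set.countable_singleton s).mono fun t ht => by
    by_contra h
    exact ht (Pi.single_eq_of_ne h _)

theorem single_same (s : ℤ_[2]) (φ : P → ZMod 3) (hφ : ∀ x, φ (x + hf) = -φ x) :
    (single s φ hφ).a s = φ := by
  simp [single]

theorem single_ne {s t : ℤ_[2]} (h : t ≠ s) (φ : P → ZMod 3) (hφ : ∀ x, φ (x + hf) = -φ x) :
    (single s φ hφ).a t = 0 := by
  simp [single, h]

/-- the abelian normal subgroup -/
def S : Subgroup G where
  carrier := {g | g.b = 0 ∧ g.k = 1}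
  mul_mem' := fun {g g'} h h' => by simp [h.1, h.2, h'.1, h'.2]
  one_mem' := ⟨rfl, rfl⟩
  inv_mem' := fun {g} h => by simp [h.1, h.2]

theorem mem_S {g : G} : g ∈ S ↔ g.b = 0 ∧ g.k = 1 := Iff.rfl

instance : S.Normal := ⟨fun g h g' => by simp [mem_S, h.1, h.2]⟩

theorem single_mem (s : ℤ_[2]) (φ : P → ZMod 3) (hφ : ∀ x, φ (x + hf) = -φ x) :
    single s φ hφ ∈ S := ⟨rfl, rfl⟩

theorem S_comm {g g' : G} (h : g ∈ S) (h' : g' ∈ S) : g * g' = g' * g :=
  G.ext' (fun s x => by simp [h.1, h.2, h'.1, h'.2, add_comm]) (by simp [h.1, h'.1])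
    (by simp [h.2, h'.2])

theorem S_cube {g : G} (h : g ∈ S) : g ^ 3 = 1 := by
  rw [pow_three]
  refine G.ext' (fun s x => ?_) (by simp [h.1]) (by simp [h.2])
  simp only [mul_a, mul_b, mul_k, h.1, h.2, one_smul, map_zero, add_zero, mul_one, one_a,
    Pi.zero_apply]
  generalize g.a s x = z
  revert z
  decide

theorem comm_a {g : G} (h : g ∈ S) (c : P × P) (s : ℤ_[2]) (x : P) :
    ((ofB c)⁻¹ * g * ofB c * g⁻¹).a s x = g.a s (x + pr s c) - g.a s x := by
  simp [h.1, h.2, sub_eq_neg_add]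

theorem comm_mem {g : G} (h : g ∈ S) (c : G) : c⁻¹ * g * c * g⁻¹ ∈ S :=
  S.mul_mem (by simpa using (inferInstance : S.Normal).conj_mem g h c⁻¹) (S.inv_mem h)

theorem comm_a_hf {g : G} (h : g ∈ S) {c : P × P} {s : ℤ_[2]} (hc : pr s c = hf) :
    ((ofB c)⁻¹ * g * ofB c * g⁻¹).a s = g.a s := by
  funext x
  rw [comm_a h, hc, g.anti]
  generalize g.a s x = z
  revert z
  decide

theorem S_eq_comm {g : G} (h : g ∈ S) : (ofB (hf, 0))⁻¹ * g * ofB (hf, 0) * g⁻¹ = g := by
  have h2 := comm_mem h (ofB (hf, 0))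
  refine G.ext (funext fun s => comm_a_hf h ?_) (h2.1.trans h.1.symm) (h2.2.trans h.2.symm)
  simp [pr_apply]

theorem exists_sep {s t : ℤ_[2]} (h : t ≠ s) : ∃ c, pr s c = hf ∧ pr t c = 0 := by
  obtain ⟨y, hy⟩ := divisible (sub_ne_zero.2 h.symm) hf
  refine ⟨(-(t • y), y), ?_, ?_⟩
  · rw [pr_apply, ← hy, sub_smul, neg_add_eq_sub]
  · simp [pr_apply]

theorem solvable : Group.IsSolvable G := by
  let G₁ : Subgroup G :=
    { carrier := {g | g.k = 1}
      mul_mem' := fun {g g'} h h' => by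
        simp only [Set.mem_ofPred_eq] at *
        simp [h, h']
      one_mem' := rfl
      inv_mem' := fun {g} h => by
        simp only [Set.mem_ofPred_eq] at *
        simp [h] }
  have h1 : derivedSeries G 1 ≤ G₁ := by
    rw [derivedSeries_succ, Subgroup.commutator_le]
    intro g _ g' _
    change (g * g' * g⁻¹ * g'⁻¹).k = 1
    simp
  have h2 : derivedSeries G 2 ≤ S := by
    rw [derivedSeries_succ, Subgroup.commutator_le]
    intro g hg g' hg'
    have e : g.k = 1 := h1 hg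
    have e' : g'.k = 1 := h1 hg'
    change g * g' * g⁻¹ * g'⁻¹ ∈ S
    simp [mem_S, e, e']
  refine ⟨⟨3, ?_⟩⟩
  rw [eq_bot_iff, derivedSeries_succ, Subgroup.commutator_le]
  intro g hg g' hg'
  rw [Subgroup.mem_bot, commutatorElement_eq_one_iff_mul_comm]
  exact S_comm (h2 hg) (h2 hg')

theorem not_metrizable : ¬ TopologicalSpace.MetrizableSpace G := by
  intro h
  obtain ⟨U, hU⟩ := (𝓝 (1 : G)).exists_antitone_basis
  choose T O W hO hW hsub using fun n => nhds_basic (hU.mem n)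
  have hc : (⋃ n, (T n : Set ℤ_[2])).Countable :=
    Set.countable_iUnion fun n => (T n).countable_toSet
  obtain ⟨s, hs⟩ : ∃ s, s ∉ ⋃ n, (T n : Set ℤ_[2]) := by
    by_contra hcon
    push Not at hcon
    exact not_countable (hc.mono fun s _ => hcon s)
  obtain ⟨φ, hφ0, hφ⟩ := exists_anti
  have hne : single s φ hφ ≠ 1 := fun e => hφ0 (by rw [← single_same s φ hφ, e]; rfl)
  obtain ⟨n, hn⟩ := hU.mem_iff.1 (isOpen_compl_singleton.mem_nhds hne.symm)
  refine hn (hsub n (single s φ hφ) (fun t ht => ?_) (mem_of_mem_nhds (hW n))) rfl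
  have hts : t ≠ s := fun e => hs (Set.mem_iUnion.2 ⟨n, e ▸ ht⟩)
  rw [single_ne hts]
  exact mem_of_mem_nhds (hO n t)

theorem tight_step (A : Set G) (x : G) (hx : x ∈ closure A) (J : Set ℤ_[2]) (hJ : J.Countable) :
    ∃ u : ℕ → G, (∀ n, u n ∈ A) ∧ (∀ t ∈ J, Tendsto (fun n => (u n).a t) atTop (𝓝 (x.a t))) ∧
      Tendsto (fun n => ((u n).b, (u n).k)) atTop (𝓝 (x.b, x.k)) := by
  have := hJ.to_subtype
  have : Countable P := by
    have h : (⋃ n : ℕ, {y : P | (2 : ℤ_[2]) ^ n • y = 0}).Countable :=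
      Set.countable_iUnion fun n => (finite_tors n).countable
    exact Set.countable_univ_iff.1 (h.mono fun y _ => Set.mem_iUnion.2 (torsion y))
  have : FirstCountableTopology ℤ_[2]ˣ :=
    Units.isOpenEmbedding_val.isEmbedding.firstCountableTopology
  let r : G → (J → P → ZMod 3) × (P × P) × ℤ_[2]ˣ := fun g => (fun t => g.a t, g.b, g.k)
  have hr : Continuous r :=
    (continuous_pi fun t : J => (continuous_apply t.1).comp cont_a).prodMk
      (cont_b.prodMk cont_k)
  have h1 : r x ∈ closure (r '' A) := image_closure_subset_closure_image hr ⟨x, hx, rfl⟩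
  obtain ⟨v, hv, hlim⟩ := mem_closure_iff_seq_limit.1 h1
  choose u hu hur using hv
  have h2 : Tendsto (fun n => r (u n)) atTop (𝓝 (r x)) := by simpa only [hur] using hlim
  refine ⟨u, hu, fun t ht => ?_, (continuous_snd.tendsto _).comp h2⟩
  exact (((continuous_apply (⟨t, ht⟩ : J)).comp continuous_fst).tendsto _).comp h2

theorem tight (A : Set G) (x : G) (hx : x ∈ closure A) :
    ∃ B : Set G, B ⊆ A ∧ B.Countable ∧ x ∈ closure B := by
  choose u huA hua hub using tight_step A x hx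
  let J : ℕ → {J : Set ℤ_[2] // J.Countable} := fun n =>
    Nat.rec ⟨{s | x.a s ≠ 0}, x.cnt⟩
      (fun _ J => ⟨J.1 ∪ ⋃ m, {s | (u J.1 J.2 m).a s ≠ 0},
        J.2.union (Set.countable_iUnion fun m => (u J.1 J.2 m).cnt)⟩) n
  have hmono : Monotone fun n => (J n).1 :=
    monotone_nat_of_le_succ fun n => Set.subset_union_left
  have hsupp : ∀ n m t, (u (J n).1 (J n).2 m).a t ≠ 0 → t ∈ (J (n + 1)).1 := fun n m t ht =>
    Or.inr (Set.mem_iUnion.2 ⟨m, ht⟩)
  refine ⟨⋃ n, Set.range (u (J n).1 (J n).2), ?_, ?_, ?_⟩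
  · exact Set.iUnion_subset fun n => Set.range_subset_iff.2 (huA _ _)
  · exact Set.countable_iUnion fun n => Set.countable_range _
  · rw [mem_closure_iff_nhds]
    intro U hU
    obtain ⟨T, O, W, hO, hW, hsub⟩ := nhds_basic hU
    have h1 : ∀ᶠ n in atTop, ∀ t ∈ T, (∃ j, t ∈ (J j).1) → t ∈ (J n).1 := by
      rw [eventually_all_finset]
      intro t _
      by_cases h : ∃ j, t ∈ (J j).1
      · obtain ⟨j, hj⟩ := h
        exact (eventually_ge_atTop j).mono fun n hn _ => hmono hn hj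
      · exact Eventually.of_forall fun n h' => absurd h' h
    obtain ⟨n, hn⟩ := h1.exists
    have h2 : ∀ᶠ m in atTop, ∀ t ∈ T, (u (J n).1 (J n).2 m).a t ∈ O t := by
      rw [eventually_all_finset]
      intro t ht
      by_cases h : ∃ j, t ∈ (J j).1
      · exact (hua _ _ t (hn t ht h)).eventually (hO t)
      · refine Eventually.of_forall fun m => ?_
        have e1 : (u (J n).1 (J n).2 m).a t = 0 := by
          by_contra e
          exact h ⟨n + 1, hsupp n m t e⟩
        have e2 : x.a t = 0 := by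
          by_contra e
          exact h ⟨0, e⟩
        rw [e1, ← e2]
        exact mem_of_mem_nhds (hO t)
    obtain ⟨m, hm1, hm2⟩ := (h2.and ((hub (J n).1 (J n).2).eventually hW)).exists
    exact ⟨_, hsub _ hm1 hm2, Set.mem_iUnion.2 ⟨n, m, rfl⟩⟩

end Pool.Agent.Lib.MP_a4feb0_gt.Ctr

/-! The group `G` is totally minimal. -/

namespace Pool.Agent.Lib.MP_a4feb0_gt.Ctr

open Filter Topology

theorem uf_const {ι X : Type*} (𝔉 : Ultrafilter ι) {u : ι → X} {s : Set X} (hs : s.Finite)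
    (h : ∀ᶠ i in 𝔉, u i ∈ s) : ∃ z, ∀ᶠ i in 𝔉, u i = z := by
  obtain ⟨z, -, hz⟩ := (𝔉.map u).eq_pure_of_finite_mem hs h
  refine ⟨z, ?_⟩
  have : {z} ∈ 𝔉.map u := by
    rw [hz]
    exact Ultrafilter.mem_pure.2 rfl
  exact this

theorem uf_lim {ι : Type*} (𝔉 : Ultrafilter ι) (u : ι → ℤ_[2]ˣ) :
    ∃ u₀, Tendsto u 𝔉 (𝓝 u₀) := by
  obtain ⟨u₀, -, h⟩ := isCompact_univ.ultrafilter_le_nhds (𝔉.map u) (by simp)
  exact ⟨u₀, h⟩

theorem finite_tors2 (n : ℕ) : {y : P × P | (2 : ℤ_[2]) ^ n • y = 0}.Finite :=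
  ((finite_tors n).prod (finite_tors n)).subset fun _ hy =>
    ⟨congrArg Prod.fst hy, congrArg Prod.snd hy⟩

theorem torsion2 (y : P × P) : ∃ n : ℕ, (2 : ℤ_[2]) ^ n • y = 0 := by
  obtain ⟨n, hn⟩ := torsion y.1
  obtain ⟨m, hm⟩ := torsion y.2
  refine ⟨n + m, Prod.ext ?_ ?_⟩
  · rw [Prod.smul_fst, add_comm, pow_add, mul_smul, hn, smul_zero, Prod.fst_zero]
  · rw [Prod.smul_snd, pow_add, mul_smul, hm, smul_zero, Prod.snd_zero]

variable {L : Type*} [Group L] [TopologicalSpace L] (f : G →* L) {ι : Type*} (𝔉 : Ultrafilter ι)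

/-- the images tend to `1` -/
def Null (g : ι → G) : Prop := Tendsto (fun i => f (g i)) 𝔉 (𝓝 1)

/-- the translation parts of a null family without dilation parts -/
def NB (β : ι → P × P) : Prop :=
  ∃ g : ι → G, Null f 𝔉 g ∧ ∀ᶠ i in 𝔉, (g i).b = β i ∧ (g i).k = 1

variable {f 𝔉}

theorem NB.congr {β β' : ι → P × P} (h : NB f 𝔉 β) (e : ∀ᶠ i in 𝔉, β i = β' i) :
    NB f 𝔉 β' := by
  obtain ⟨g, hg, hb⟩ := h
  exact ⟨g, hg, (hb.and e).mono fun i hi => ⟨hi.1.1.trans hi.2, hi.1.2⟩⟩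

theorem NB.of_ker {β : ι → P × P} (h : ∀ i, f (ofB (β i)) = 1) : NB f 𝔉 β :=
  ⟨fun i => ofB (β i), by simp only [Null, h]; exact tendsto_const_nhds,
    Eventually.of_forall fun _ => ⟨rfl, rfl⟩⟩

omit [TopologicalSpace L] in
theorem ker_neg {b : P × P} (h : f (ofB b) = 1) : f (ofB (-b)) = 1 := by
  have := ofB_add b (-b)
  rw [add_neg_cancel, ofB_zero] at this
  have h2 := congrArg f this
  rw [map_one, map_mul, h, one_mul] at h2
  exact h2.symm

variable [IsTopologicalGroup L]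

theorem Null.mul {g g' : ι → G} (h : Null f 𝔉 g) (h' : Null f 𝔉 g') :
    Null f 𝔉 fun i => g i * g' i := by
  simpa only [Null, map_mul, mul_one] using Tendsto.mul h h'

theorem Null.inv {g : ι → G} (h : Null f 𝔉 g) : Null f 𝔉 fun i => (g i)⁻¹ := by
  simpa only [Null, map_inv, inv_one] using Tendsto.inv h

theorem Null.conj {g u : ι → G} {l : L} (h : Null f 𝔉 g)
    (hu : Tendsto (fun i => f (u i)) 𝔉 (𝓝 l)) : Null f 𝔉 fun i => u i * g i * (u i)⁻¹ := by
  simpa only [Null, map_mul, map_inv, mul_one, mul_inv_cancel] using (hu.mul h).mul hu.inv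

theorem Null.comm {g : ι → G} (h : Null f 𝔉 g) (c : G) :
    Null f 𝔉 fun i => c⁻¹ * g i * c * (g i)⁻¹ := by
  have := (h.conj (u := fun _ => c⁻¹) tendsto_const_nhds).mul h.inv
  simpa only [inv_inv] using this

theorem NB.add {β β' : ι → P × P} (h : NB f 𝔉 β) (h' : NB f 𝔉 β') :
    NB f 𝔉 fun i => β i + β' i := by
  obtain ⟨g, hg, hb⟩ := h
  obtain ⟨g', hg', hb'⟩ := h'
  exact ⟨_, hg.mul hg', (hb.and hb').mono fun i hi => by
    simp [hi.1.1, hi.1.2, hi.2.1, hi.2.2]⟩

theorem NB.unit (hf : Continuous f) {β : ι → P × P} (h : NB f 𝔉 β) (u : ι → ℤ_[2]ˣ) :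
    NB f 𝔉 fun i => u i • β i := by
  obtain ⟨g, hg, hb⟩ := h
  obtain ⟨u₀, hu⟩ := uf_lim 𝔉 u
  exact ⟨_, hg.conj (u := fun i => ofK (u i)) (((hf.comp cont_ofK).tendsto _).comp hu),
    hb.mono fun i hi => by simp [hi.1, hi.2]⟩

theorem NB.smul (hf : Continuous f) {β : ι → P × P} (h : NB f 𝔉 β) (r : ι → ℤ_[2]) :
    NB f 𝔉 fun i => r i • β i := by
  classical
  have key : ∀ r : ι → ℤ_[2], (∀ᶠ i in 𝔉, IsUnit (r i)) → NB f 𝔉 fun i => r i • β i := by
    intro r hr
    refine (h.unit hf fun i => if e : IsUnit (r i) then e.unit else 1).congr (hr.mono ?_)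
    intro i hi
    rw [dif_pos hi, Units.smul_def, hi.unit_spec]
  have h1 : ∀ᶠ i in 𝔉, IsUnit (r i) ∨ IsUnit (1 - r i) :=
    Eventually.of_forall fun i => IsLocalRing.isUnit_or_isUnit_one_sub_self (r i)
  rcases Ultrafilter.eventually_or.1 h1 with h2 | h2
  · exact key r h2
  · refine (h.add (key (fun i => -(1 - r i)) (h2.mono fun i hi => hi.neg))).congr
      (Eventually.of_forall fun i => ?_)
    rw [neg_sub, sub_smul, one_smul, add_sub_cancel]

variable [T2Space L]

omit [IsTopologicalGroup L] in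
theorem Null.const {g : ι → G} (h : Null f 𝔉 g) {l : L} (e : ∀ᶠ i in 𝔉, f (g i) = l) : l = 1 :=
  tendsto_nhds_unique (tendsto_const_nhds.congr' (e.mono fun _ hi => hi.symm)) h

theorem NB.const {z : P × P} (h : NB f 𝔉 fun _ => z) : f (ofB z) = 1 := by
  obtain ⟨g, hg, hb⟩ := h
  have hS : ∀ᶠ i in 𝔉, (ofB z)⁻¹ * g i ∈ S := hb.mono fun i hi => by simp [mem_S, hi.1, hi.2]
  have h1 : ∀ x ∈ S, f (ofB z) * f x = f x * f (ofB z) := by
    intro x hx
    have h2 : f (x⁻¹ * ofB z * x * (ofB z)⁻¹) = 1 := by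
      refine (hg.comm x).const (hS.mono fun i hi => congrArg f ?_)
      have h3 := S_comm hi hx
      calc x⁻¹ * g i * x * (g i)⁻¹
          = x⁻¹ * ofB z * ((ofB z)⁻¹ * g i * x) * (g i)⁻¹ := by group
        _ = x⁻¹ * ofB z * x * (ofB z)⁻¹ := by rw [h3]; group
    simp only [map_mul, map_inv] at h2
    calc f (ofB z) * f x = f x * ((f x)⁻¹ * f (ofB z) * f x * (f (ofB z))⁻¹) * f (ofB z) := by
          group
      _ = f x * f (ofB z) := by rw [h2, mul_one]
  have h4 : f (ofB z) ^ 3 = 1 := by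
    refine (hg.mul (hg.mul hg)).const (hS.mono fun i hi => ?_)
    have h5 : Commute (f (ofB z)) (f ((ofB z)⁻¹ * g i)) := h1 _ hi
    have h6 : f (g i) = f (ofB z) * f ((ofB z)⁻¹ * g i) := by
      rw [← map_mul, mul_inv_cancel_left]
    rw [← pow_three, map_pow, h6, h5.mul_pow, ← map_pow f ((ofB z)⁻¹ * g i), S_cube hi, map_one,
      mul_one]
  obtain ⟨n, hn⟩ := torsion2 z
  have h7 : f (ofB z) ^ 2 ^ n = 1 := by
    rw [← map_pow, ← ofB_nsmul, ← Nat.cast_smul_eq_nsmul ℤ_[2]]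
    push_cast
    rw [hn, ofB_zero, map_one]
  have h8 := pow_gcd_eq_one.2 ⟨h4, h7⟩
  rwa [Nat.Coprime.gcd_eq_one (Nat.Coprime.pow_right n (by norm_num)), pow_one] at h8

theorem NB.ker (hf : Continuous f) {β : ι → P × P} (h : NB f 𝔉 β) :
    ∀ᶠ i in 𝔉, f (ofB (β i)) = 1 := by
  classical
  have ex : ∀ i, ∃ m : ℕ, ∃ n, f (ofB n) = 1 ∧ (2 : ℤ_[2]) ^ m • (β i + n) = 0 := fun i => by
    obtain ⟨m, hm⟩ := torsion2 (β i)
    exact ⟨m, 0, map_one f, by rwa [add_zero]⟩
  choose n hn hm using fun i => Nat.find_spec (ex i)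
  have h1 : NB f 𝔉 fun i => β i + n i := h.add (NB.of_ker hn)
  have h2 : ∀ r : ℕ, ∃ z, f (ofB z) = 1 ∧
      ∀ᶠ i in 𝔉, (2 : ℤ_[2]) ^ (Nat.find (ex i) - r) • (β i + n i) = z := by
    intro r
    obtain ⟨z, hz⟩ := uf_const 𝔉 (u := fun i => (2 : ℤ_[2]) ^ (Nat.find (ex i) - r) • (β i + n i))
      (finite_tors2 r) (Eventually.of_forall fun i => by
        obtain ⟨d, hd⟩ : ∃ d, r + (Nat.find (ex i) - r) = d + Nat.find (ex i) :=
          ⟨r - Nat.find (ex i), by omega⟩
        change (2 : ℤ_[2]) ^ r • (2 : ℤ_[2]) ^ (Nat.find (ex i) - r) • (β i + n i) = 0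
        rw [← mul_smul, ← pow_add, hd, pow_add, mul_smul, hm, smul_zero])
    exact ⟨z, ((h1.smul hf _).congr hz).const, hz⟩
  choose z hz hz' using h2
  by_cases hb : ∃ R, ∀ᶠ i in 𝔉, Nat.find (ex i) ≤ R
  · obtain ⟨R, hR⟩ := hb
    refine (hR.and (hz' R)).mono fun i hi => ?_
    have e : β i = z R + -n i := by
      rw [← hi.2, Nat.sub_eq_zero_of_le hi.1, pow_zero, one_smul, add_neg_cancel_right]
    rw [e, ofB_add, map_mul, hz, ker_neg (hn i), mul_one]
  · exfalso
    have hb' : ∀ R, ∀ᶠ i in 𝔉, R < Nat.find (ex i) := fun R =>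
      (Ultrafilter.eventually_not.2 fun e => hb ⟨R, e⟩).mono fun i hi => not_le.1 hi
    have h3 : ∀ r, (2 : ℤ_[2]) ^ r • z (r + 1) = z 1 := by
      intro r
      obtain ⟨i, h4, h5, h6⟩ := ((hb' r).and ((hz' (r + 1)).and (hz' 1))).exists
      rw [← h5, ← h6, ← mul_smul, ← pow_add]
      congr 2
      omega
    obtain ⟨i, h4, h5⟩ := ((hb' 0).and (hz' 1)).exists
    refine Nat.find_min (ex i) (m := Nat.find (ex i) - 1) (by omega)
      ⟨n i + -z (Nat.find (ex i) - 1 + 1), ?_, ?_⟩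
    · rw [ofB_add, map_mul, hn, ker_neg (hz _), mul_one]
    · rw [← add_assoc, smul_add, h5, smul_neg, h3, add_neg_cancel]

omit [T2Space L] in
theorem Null.cut {a : ι → G} (ha : ∀ i, a i ∈ S) (h : Null f 𝔉 a) (s : ℤ_[2]) (T : Finset ℤ_[2]) :
    ∃ a' : ι → G, (∀ i, a' i ∈ S) ∧ Null f 𝔉 a' ∧ (∀ i, (a' i).a s = (a i).a s) ∧
      ∀ t ∈ T, t ≠ s → ∀ i, (a' i).a t = 0 := by
  classical
  induction T using Finset.induction_on with
  | empty => exact ⟨a, ha, h, fun _ => rfl, by simp⟩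
  | insert t T _ ih =>
    obtain ⟨a', h1, h2, h3, h4⟩ := ih
    by_cases hts : t = s
    · refine ⟨a', h1, h2, h3, fun u hu hus => ?_⟩
      rcases Finset.mem_insert.1 hu with e | e
      · exact absurd (e.trans hts) hus
      · exact h4 u e hus
    · obtain ⟨c, hc1, hc2⟩ := exists_sep hts
      refine ⟨_, fun i => comm_mem (h1 i) _, h2.comm (ofB c),
        fun i => (comm_a_hf (h1 i) hc1).trans (h3 i), fun u hu hus i => ?_⟩
      funext x
      rw [comm_a (h1 i)]
      rcases Finset.mem_insert.1 hu with e | e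
      · rw [e, hc2, add_zero, sub_self, Pi.zero_apply]
      · rw [h4 u e hus i]
        simp

theorem Null.good_S (hf : Continuous f) {N : Subgroup G} [N.Normal] (hN : ∀ g, f g = 1 → g ∈ N)
    {a : ι → G} (ha : ∀ i, a i ∈ S) (h : Null f 𝔉 a) :
    Tendsto (fun i => (a i : G ⧸ N)) 𝔉 (𝓝 1) := by
  classical
  choose φ hφ using fun s y => uf_const 𝔉 (u := fun i => (a i).a s y) Set.finite_univ
    (Eventually.of_forall fun _ => Set.mem_univ _)
  have hanti : ∀ s x, φ s (x + Ctr.hf) = -φ s x := fun s x => by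
    obtain ⟨i, h1, h2⟩ := ((hφ s (x + Ctr.hf)).and (hφ s x)).exists
    rw [← h1, ← h2, (a i).anti]
  have hlim : ∀ s, Tendsto (fun i => (a i).a s) 𝔉 (𝓝 (φ s)) := fun s =>
    tendsto_pi_nhds.2 fun y => tendsto_const_nhds.congr' ((hφ s y).mono fun _ hi => hi.symm)
  have hker : ∀ s, f (single s (φ s) (hanti s)) = 1 := by
    intro s
    by_contra hne
    obtain ⟨V, V', hV, hV', hm, hm', hd⟩ := t2_separation hne
    obtain ⟨T, O, W, hO, hW, hsub⟩ := nhds_basic ((hV.preimage hf).mem_nhds hm)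
    obtain ⟨a', h1, h2, h3, h4⟩ := h.cut ha s T
    have h5 : O s ∈ 𝓝 (φ s) := by
      have := hO s
      rwa [single_same] at this
    obtain ⟨i, h6, h7⟩ := (((hlim s).eventually h5).and (h2.eventually (hV'.mem_nhds hm'))).exists
    refine Set.disjoint_left.1 hd (hsub (a' i) (fun t ht => ?_) ?_) h7
    · by_cases hts : t = s
      · rw [hts, h3]
        exact h6
      · rw [h4 t ht hts, ← single_ne hts (φ s) (hanti s)]
        exact mem_of_mem_nhds (hO t)
    · rw [(h1 i).1, (h1 i).2]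
      exact mem_of_mem_nhds hW
  have hfin : ∀ T : Finset ℤ_[2], ∃ n ∈ S, f n = 1 ∧ (∀ t ∈ T, n.a t = φ t) ∧
      ∀ t ∉ T, n.a t = 0 := by
    intro T
    induction T using Finset.induction_on with
    | empty => exact ⟨1, S.one_mem, map_one f, by simp, fun _ _ => rfl⟩
    | insert s T hs ih =>
      obtain ⟨n, h1, h2, h3, h4⟩ := ih
      have e : ∀ t, (n * single s (φ s) (hanti s)).a t =
          (single s (φ s) (hanti s)).a t + n.a t := fun t => by
        funext x
        simp [(single_mem s (φ s) (hanti s)).1, (single_mem s (φ s) (hanti s)).2]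
      refine ⟨n * single s (φ s) (hanti s), S.mul_mem h1 (single_mem _ _ _),
        by rw [map_mul, h2, hker, mul_one], fun t ht => ?_, fun t ht => ?_⟩
      · rcases Finset.mem_insert.1 ht with e' | e'
        · rw [e, e', single_same, h4 s hs, add_zero]
        · rw [e, single_ne (fun e'' : t = s => hs (e'' ▸ e')), h3 t e', zero_add]
      · rw [Finset.mem_insert, not_or] at ht
        rw [e, single_ne ht.1, h4 t ht.2, add_zero]
  intro V hV
  have hU : ((↑) : G → G ⧸ N) ⁻¹' V ∈ 𝓝 (1 : G) :=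
    QuotientGroup.continuous_mk.continuousAt.preimage_mem_nhds hV
  obtain ⟨T, O, W, hO, hW, hsub⟩ := nhds_basic hU
  obtain ⟨n, h1, h2, h3, -⟩ := hfin T
  have h5 : ∀ᶠ i in 𝔉, ∀ t ∈ T, (a i).a t - φ t ∈ O t := by
    rw [eventually_all_finset]
    intro t _
    have h6 := (hlim t).sub_const (φ t)
    rw [sub_self] at h6
    exact h6.eventually (hO t)
  refine h5.mono fun i hi => ?_
  have h7 := S.mul_mem (ha i) (S.inv_mem h1)
  have h8 := hsub (a i * n⁻¹) (fun t ht => ?_) (by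
    rw [h7.1, h7.2]
    exact mem_of_mem_nhds hW)
  · have h9 : ((a i * n⁻¹ : G) : G ⧸ N) = a i := by
      rw [QuotientGroup.mk_mul_of_mem _ (N.inv_mem (hN n h2))]
    rw [Set.mem_preimage, h9] at h8
    exact h8
  · have e : (a i * n⁻¹).a t = (a i).a t - φ t := by
      funext x
      simp [h1.1, h1.2, h3 t ht, sub_eq_neg_add]
    rw [e]
    exact hi t ht

theorem Null.good_k (hf : Continuous f) {N : Subgroup G} [N.Normal] (hN : ∀ g, f g = 1 → g ∈ N)
    {g : ι → G} (h : Null f 𝔉 g) {k₀ : ℤ_[2]ˣ} (hk : ∀ i, (g i).k = k₀) :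
    Tendsto (fun i => (g i : G ⧸ N)) 𝔉 (𝓝 1) := by
  by_cases e : k₀ = 1
  · subst e
    have h1 : ∀ᶠ i in 𝔉, f (ofB (g i).b) = 1 :=
      NB.ker hf ⟨g, h, Eventually.of_forall fun i => ⟨rfl, hk i⟩⟩
    have h2 : Null f 𝔉 fun i => g i * (ofB (g i).b)⁻¹ :=
      Tendsto.congr' (h1.mono fun i hi => by simp [hi]) h
    refine (h2.good_S hf hN fun i => by simp [mem_S, hk i]).congr' (h1.mono fun i hi => ?_)
    exact QuotientGroup.mk_mul_of_mem _ (N.inv_mem (hN _ hi))
  · have hne : (1 : ℤ_[2]) - k₀ ≠ 0 := fun e' => e (Units.ext (sub_eq_zero.1 e').symm)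
    have hB : ∀ b, f (ofB b) = 1 := by
      intro b
      obtain ⟨x, hx⟩ := divisible hne b.1
      obtain ⟨y, hy⟩ := divisible hne b.2
      have e1 : b = (x, y) - k₀ • (x, y) := by
        rw [Units.smul_def, ← one_smul ℤ_[2] (x, y), smul_smul, mul_one, ← sub_smul]
        exact Prod.ext hx.symm hy.symm
      refine NB.const (𝔉 := 𝔉) ⟨_, h.comm (ofB (x, y))⁻¹, Eventually.of_forall fun i => ?_⟩
      rw [e1]
      constructor
      · simp only [inv_inv, mul_b, mul_k, inv_b, inv_k, ofB_b, ofB_k, hk i, one_smul, one_mul,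
          inv_one, mul_one, smul_neg, smul_inv_smul]
        abel
      · simp
    have hS : ∀ x ∈ S, f x = 1 := by
      intro x hx
      rw [← S_eq_comm hx]
      simp [hB]
    have h1 : ∀ i, f (g i) = f (ofK k₀) := by
      intro i
      have h2 : g i * (ofK k₀)⁻¹ * (ofB (g i).b)⁻¹ ∈ S := by simp [mem_S, hk i]
      have h3 := hS _ h2
      rw [map_mul, map_inv, hB, inv_one, mul_one, map_mul, map_inv, mul_inv_eq_one] at h3
      exact h3
    have h4 : f (ofK k₀) = 1 := h.const (Eventually.of_forall h1)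
    refine tendsto_const_nhds.congr fun i => ?_
    exact ((QuotientGroup.eq_one_iff _).2 (hN _ ((h1 i).trans h4))).symm

theorem Null.good (hf : Continuous f) {N : Subgroup G} [N.Normal] (hN : ∀ g, f g = 1 → g ∈ N)
    {g : ι → G} (h : Null f 𝔉 g) : Tendsto (fun i => (g i : G ⧸ N)) 𝔉 (𝓝 1) := by
  obtain ⟨k₀, hk⟩ := uf_lim 𝔉 fun i => (g i).k
  let d : ι → G := fun i => (ofK (g i).k)⁻¹ * ofK k₀
  have hd : Tendsto d 𝔉 (𝓝 1) := by
    have := ((cont_ofK.tendsto _).comp hk).inv.mul_const (ofK k₀)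
    rwa [inv_mul_cancel] at this
  have hd' : Null f 𝔉 d := by
    have := (hf.tendsto _).comp hd
    rwa [map_one] at this
  have h' : Null f 𝔉 fun i => g i * d i := h.mul hd'
  have hk' : ∀ i, (g i * d i).k = k₀ := fun i => by simp [d]
  have h1 := (h'.good_k hf hN hk').mul
    ((QuotientGroup.continuous_mk (N := N).tendsto _).comp hd).inv
  simpa using h1

theorem totallyMinimal (N : Subgroup G) [N.Normal] (σ : TopologicalSpace (G ⧸ N))
    (hσ : @IsTopologicalGroup (G ⧸ N) σ _) (h2 : @T2Space (G ⧸ N) σ)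
    (hle : QuotientGroup.instTopologicalSpace N ≤ σ) :
    σ = QuotientGroup.instTopologicalSpace N := by
  have hc : @Continuous _ _ _ σ (QuotientGroup.mk' N) :=
    continuous_le_rng hle QuotientGroup.continuous_mk
  refine IsTopologicalGroup.ext hσ inferInstance (le_antisymm ?_ (nhds_mono hle))
  refine Filter.le_iff_ultrafilter.2 fun 𝔉 h𝔉 => ?_
  have h3 := @Null.good (G ⧸ N) _ σ (QuotientGroup.mk' N) (G ⧸ N) 𝔉 hσ h2 hc N _
    (fun g hg => (QuotientGroup.eq_one_iff g).1 hg) Quotient.out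
    (by simpa [Null, Tendsto] using h𝔉)
  simpa [Tendsto] using h3

end Pool.Agent.Lib.MP_a4feb0_gt.Ctr
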